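import Mathlib
import Pool.Agent.PT.NPDefs

/-!
# The universal theory of the reals and the class `∀ℝ`
-/

set_option autoImplicit false

namespace Pool.Agent.AllR

open Pool.Agent.PT

/-- The alphabet in which formulas are written. -/
inductive Sym
  | b0 | b1 | plus | minus | var | eq | lt | gt | and | or | not
  deriving DecidableEq

instance : Fintype Sym := ⟨{.b0, .b1, .plus, .minus, .var, .eq, .lt, .gt, .and, .or, .not}, by
  intro x; cases x <;> simp⟩

/-- A monomial: an integer coefficient and the list (with repetitions) of its variables; a variable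
is named by a binary word. -/
abbrev Mono := ℤ × List (List Bool)

/-- A polynomial with integer coefficients, as the list of its monomials. -/
abbrev Poly := List Mono

/-- Quantifier-free formulas. -/
inductive Fm
  | eq (p : Poly) | lt (p : Poly) | gt (p : Poly)
  | and (f g : Fm) | or (f g : Fm) | not (f : Fm)

/-- The value of a monomial. -/
noncomputable def Mono.eval (ρ : List Bool → ℝ) (m : Mono) : ℝ := m.1 * (m.2.map ρ).prod

/-- The value of a polynomial. -/
noncomputable def Poly.eval (ρ : List Bool → ℝ) (p : Poly) : ℝ := (p.map (Mono.eval ρ)).sum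

/-- Truth of a quantifier-free formula at a real assignment. -/
def Fm.Holds (ρ : List Bool → ℝ) : Fm → Prop
  | .eq p => Poly.eval ρ p = 0
  | .lt p => Poly.eval ρ p < 0
  | .gt p => 0 < Poly.eval ρ p
  | .and f g => f.Holds ρ ∧ g.Holds ρ
  | .or f g => f.Holds ρ ∨ g.Holds ρ
  | .not f => ¬ f.Holds ρ

/-- Bits. -/
def bitSym (b : Bool) : Sym := if b then .b1 else .b0

/-- sign, absolute value in binary, then the variables -/
def Mono.enc (m : Mono) : List Sym :=
  (if m.1 < 0 then .minus else .plus) :: (m.1.natAbs.bits.map bitSym ++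
    m.2.flatMap fun v => .var :: v.map bitSym)

/-- The code of a polynomial. -/
def Poly.enc (p : Poly) : List Sym := p.flatMap Mono.enc

/-- Prefix notation. -/
def Fm.enc : Fm → List Sym
  | .eq p => .eq :: Poly.enc p
  | .lt p => .lt :: Poly.enc p
  | .gt p => .gt :: Poly.enc p
  | .and f g => .and :: (f.enc ++ g.enc)
  | .or f g => .or :: (f.enc ++ g.enc)
  | .not f => .not :: f.enc

/-- The universal theory of the reals: codes of quantifier-free `φ(x₁,…,x_m)` such that
`∀ x₁ … ∀ x_m, φ` is true over `ℝ`. -/
def UTR : Set (List Sym) := {w | ∃ f : Fm, w = f.enc ∧ ∀ ρ : List Bool → ℝ, f.Holds ρ}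

/-- The class `∀ℝ`. -/
def InForallR {Γ : Type} (L : Set (List Γ)) : Prop := PolyReducible L UTR

end Pool.Agent.AllR
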