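import Mathlib
import Pool.Agent.AllR.Defs

/-!
# Unique readability
-/

set_option autoImplicit false

namespace Pool.Agent.AllR

/-- The word does not start with a symbol satisfying `P`. -/
def NoHead (P : Sym → Prop) (l : List Sym) : Prop := ∀ s ∈ l.head?, ¬ P s

/-- Bits. -/
def IsBit (s : Sym) : Prop := s = .b0 ∨ s = .b1

/-- Letters inside monomials. -/
def IsIn (s : Sym) : Prop := s = .b0 ∨ s = .b1 ∨ s = .var

/-- Letters inside polynomials. -/
def IsPo (s : Sym) : Prop := s = .b0 ∨ s = .b1 ∨ s = .var ∨ s = .plus ∨ s = .minus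

theorem NoHead.mono {P Q : Sym → Prop} (h : ∀ s, Q s → P s) {l : List Sym} (hl : NoHead P l) :
    NoHead Q l := fun s hs hQ => hl s hs (h s hQ)

theorem bits_read : ∀ (v v' : List Bool) (r r' : List Sym), NoHead IsBit r → NoHead IsBit r' →
    v.map bitSym ++ r = v'.map bitSym ++ r' → v = v' ∧ r = r'
  | [], [], r, r', _, _, h => ⟨rfl, by simpa using h⟩
  | [], b :: v', r, r', hr, _, h => by
    exfalso
    simp only [List.map_nil, List.nil_append, List.map_cons, List.cons_append] at h
    have := hr (bitSym b) (by rw [h]; simp)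
    apply this
    cases b <;> simp [bitSym, IsBit]
  | b :: v, [], r, r', _, hr', h => by
    exfalso
    simp only [List.map_nil, List.nil_append, List.map_cons, List.cons_append] at h
    have := hr' (bitSym b) (by rw [← h]; simp)
    apply this
    cases b <;> simp [bitSym, IsBit]
  | b :: v, b' :: v', r, r', hr, hr', h => by
    simp only [List.map_cons, List.cons_append, List.cons.injEq] at h
    obtain ⟨h1, h2⟩ := h
    obtain ⟨h3, h4⟩ := bits_read v v' r r' hr hr' h2
    refine ⟨?_, h4⟩
    rw [h3]
    congr 1
    cases b <;> cases b' <;> simp_all [bitSym]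

theorem vars_read : ∀ (v v' : List (List Bool)) (r r' : List Sym), NoHead IsIn r → NoHead IsIn r' →
    (v.flatMap fun v => Sym.var :: v.map bitSym) ++ r =
      (v'.flatMap fun v => Sym.var :: v.map bitSym) ++ r' → v = v' ∧ r = r'
  | [], [], r, r', _, _, h => ⟨rfl, by simpa using h⟩
  | [], b :: v', r, r', hr, _, h => by
    exfalso
    simp only [List.flatMap_nil, List.nil_append, List.flatMap_cons, List.cons_append] at h
    exact hr Sym.var (by rw [h]; simp) (by simp [IsIn])
  | b :: v, [], r, r', _, hr', h => by
    exfalso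
    simp only [List.flatMap_nil, List.nil_append, List.flatMap_cons, List.cons_append] at h
    exact hr' Sym.var (by rw [← h]; simp) (by simp [IsIn])
  | b :: v, b' :: v', r, r', hr, hr', h => by
    simp only [List.flatMap_cons, List.cons_append, List.cons.injEq, true_and,
      List.append_assoc] at h
    have hn : ∀ (w : List (List Bool)) (t : List Sym), NoHead IsIn t →
        NoHead IsBit ((w.flatMap fun v => Sym.var :: v.map bitSym) ++ t) := by
      intro w t ht
      cases w with
      | nil =>
        simp only [List.flatMap_nil, List.nil_append]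
        exact ht.mono fun s hs => by rcases hs with h | h <;> simp [IsIn, h]
      | cons a w =>
        intro s hs
        simp only [List.flatMap_cons, List.cons_append, List.head?_cons, Option.mem_some_iff] at hs
        subst hs
        simp [IsBit]
    obtain ⟨h1, h2⟩ := bits_read b b' _ _ (hn v r hr) (hn v' r' hr') h
    obtain ⟨h3, h4⟩ := vars_read v v' r r' hr hr' h2
    exact ⟨by rw [h1, h3], h4⟩

theorem bits_inj (a b : ℕ) (h : a.bits = b.bits) : a = b := by
  have ha := Nat.digits_two_eq_bits a
  have hb := Nat.digits_two_eq_bits b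
  rw [h, ← hb] at ha
  exact Nat.digits_inj_iff.1 ha

theorem mono_read (m m' : Mono) (r r' : List Sym) (hr : NoHead IsIn r) (hr' : NoHead IsIn r')
    (h : m.enc ++ r = m'.enc ++ r') : m = m' ∧ r = r' := by
  unfold Mono.enc at h
  simp only [List.cons_append, List.cons.injEq, List.append_assoc] at h
  obtain ⟨h1, h2⟩ := h
  have hn : ∀ (w : List (List Bool)) (t : List Sym), NoHead IsIn t →
      NoHead IsBit ((w.flatMap fun v => Sym.var :: v.map bitSym) ++ t) := by
    intro w t ht
    cases w with
    | nil =>
      simp only [List.flatMap_nil, List.nil_append]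
      exact ht.mono fun s hs => by rcases hs with h | h <;> simp [IsIn, h]
    | cons a w =>
      intro s hs
      simp only [List.flatMap_cons, List.cons_append, List.head?_cons, Option.mem_some_iff] at hs
      subst hs
      simp [IsBit]
  obtain ⟨h3, h4⟩ := bits_read _ _ _ _ (hn _ r hr) (hn _ r' hr') h2
  obtain ⟨h5, h6⟩ := vars_read _ _ _ _ hr hr' h4
  refine ⟨?_, h6⟩
  have h7 := bits_inj _ _ h3
  have h8 : m.1 = m'.1 := by
    by_cases ha : m.1 < 0 <;> by_cases hb : m'.1 < 0 <;> simp [ha, hb] at h1 <;> omega
  exact Prod.ext h8 h5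

theorem poly_read : ∀ (p p' : Poly) (r r' : List Sym), NoHead IsPo r → NoHead IsPo r' →
    p.enc ++ r = p'.enc ++ r' → p = p' ∧ r = r'
  | [], [], r, r', _, _, h => ⟨rfl, by simpa [Poly.enc] using h⟩
  | [], m :: p', r, r', hr, _, h => by
    exfalso
    simp only [Poly.enc, List.flatMap_nil, List.nil_append, List.flatMap_cons, Mono.enc,
      List.cons_append] at h
    refine hr _ (by rw [h]; simp; rfl) ?_
    split_ifs <;> simp [IsPo]
  | m :: p, [], r, r', _, hr', h => by
    exfalso
    simp only [Poly.enc, List.flatMap_nil, List.nil_append, List.flatMap_cons, Mono.enc,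
      List.cons_append] at h
    refine hr' _ (by rw [← h]; simp; rfl) ?_
    split_ifs <;> simp [IsPo]
  | m :: p, m' :: p', r, r', hr, hr', h => by
    have e : ∀ (m : Mono) (p : Poly), Poly.enc (m :: p) = m.enc ++ Poly.enc p := by
      intro m p; simp [Poly.enc]
    rw [e, e, List.append_assoc, List.append_assoc] at h
    have hn : ∀ (w : Poly) (t : List Sym), NoHead IsPo t → NoHead IsIn (w.enc ++ t) := by
      intro w t ht
      cases w with
      | nil =>
        simp only [Poly.enc, List.flatMap_nil, List.nil_append]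
        exact ht.mono fun s hs => by rcases hs with h | h | h <;> simp [IsPo, h]
      | cons a w =>
        intro s hs
        rw [e, Mono.enc] at hs
        simp only [List.cons_append, List.head?_cons, Option.mem_some_iff] at hs
        subst hs
        split_ifs <;> simp [IsIn]
    obtain ⟨h1, h2⟩ := mono_read m m' _ _ (hn p r hr) (hn p' r' hr') h
    obtain ⟨h3, h4⟩ := poly_read p p' r r' hr hr' h2
    exact ⟨by rw [h1, h3], h4⟩

theorem fm_head (f : Fm) (l : List Sym) : NoHead IsPo (f.enc ++ l) := by
  intro s hs
  cases f <;> simp only [Fm.enc, List.cons_append, List.head?_cons, Option.mem_some_iff] at hs <;>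
    subst hs <;> simp [IsPo]

theorem fm_read : ∀ (f g : Fm) (r r' : List Sym), NoHead IsPo r → NoHead IsPo r' →
    f.enc ++ r = g.enc ++ r' → f = g ∧ r = r' := by
  intro f
  induction f with
  | eq p =>
    intro g r r' hr hr' h
    cases g <;> simp only [Fm.enc, List.cons_append, List.cons.injEq, reduceCtorEq, false_and,
      true_and] at h
    obtain ⟨h1, h2⟩ := poly_read _ _ _ _ hr hr' h
    exact ⟨by rw [h1], h2⟩
  | lt p =>
    intro g r r' hr hr' h
    cases g <;> simp only [Fm.enc, List.cons_append, List.cons.injEq, reduceCtorEq, false_and,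
      true_and] at h
    obtain ⟨h1, h2⟩ := poly_read _ _ _ _ hr hr' h
    exact ⟨by rw [h1], h2⟩
  | gt p =>
    intro g r r' hr hr' h
    cases g <;> simp only [Fm.enc, List.cons_append, List.cons.injEq, reduceCtorEq, false_and,
      true_and] at h
    obtain ⟨h1, h2⟩ := poly_read _ _ _ _ hr hr' h
    exact ⟨by rw [h1], h2⟩
  | and f1 f2 ih1 ih2 =>
    intro g r r' hr hr' h
    cases g <;> simp only [Fm.enc, List.cons_append, List.cons.injEq, reduceCtorEq, false_and,
      true_and, List.append_assoc] at h
    obtain ⟨h1, h2⟩ := ih1 _ _ _ (fm_head _ _) (fm_head _ _) h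
    obtain ⟨h3, h4⟩ := ih2 _ _ _ hr hr' h2
    exact ⟨by rw [h1, h3], h4⟩
  | or f1 f2 ih1 ih2 =>
    intro g r r' hr hr' h
    cases g <;> simp only [Fm.enc, List.cons_append, List.cons.injEq, reduceCtorEq, false_and,
      true_and, List.append_assoc] at h
    obtain ⟨h1, h2⟩ := ih1 _ _ _ (fm_head _ _) (fm_head _ _) h
    obtain ⟨h3, h4⟩ := ih2 _ _ _ hr hr' h2
    exact ⟨by rw [h1, h3], h4⟩
  | not f1 ih1 =>
    intro g r r' hr hr' h
    cases g <;> simp only [Fm.enc, List.cons_append, List.cons.injEq, reduceCtorEq, false_and,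
      true_and] at h
    obtain ⟨h1, h2⟩ := ih1 _ _ _ hr hr' h
    exact ⟨by rw [h1], h2⟩

/-- Sanity check: unique readability. -/
theorem Fm.enc_injective : Function.Injective Fm.enc := by
  intro f g h
  have hnil : NoHead IsPo [] := by intro s hs; simp at hs
  exact (fm_read f g [] [] hnil hnil (by simpa using h)).1

end Pool.Agent.AllR
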