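import Mathlib
import Pool.Agent.PT.UF
import Pool.Agent.AllR.Defs
import Pool.Agent.AllR.Enc

/-!
# Flat systems reduce to the universal theory of the reals
-/

set_option autoImplicit false
set_option linter.unreachableTactic false
set_option linter.unusedTactic false

namespace Pool.Agent.AllR

open Pool.Agent.PT

/-- The name of variable `v`: a word of length `W` with `v` ones in front. -/
def nm (W v : ℕ) : List Bool := (List.range W).map (fun k => decide (k < v))

theorem count_nm (W v : ℕ) (h : v ≤ W) : (nm W v).count true = v := by
  induction W with
  | zero =>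
    have : v = 0 := by omega
    subst this
    simp [nm]
  | succ W ih =>
    by_cases hv : v ≤ W
    · have := ih hv
      unfold nm at this ⊢
      rw [List.range_succ, List.map_append, List.count_append, this]
      simp [hv]
    · have hv' : v = W + 1 := by omega
      subst hv'
      unfold nm
      have : (List.range (W + 1)).map (fun k => decide (k < W + 1)) =
          List.replicate (W + 1) true := by
        rw [List.eq_replicate_iff]
        refine ⟨by simp, ?_⟩
        intro b hb
        simp only [List.mem_map, List.mem_range] at hb
        obtain ⟨k, hk, rfl⟩ := hb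
        simpa using hk
      rw [this]
      simp

/-- `x_a x_b + x_c - x_d`. -/
def cpoly (W a b c d : ℕ) : Poly := [(1, [nm W a, nm W b]), (1, [nm W c]), (-1, [nm W d])]

/-- `x_0 - 1`. -/
def opoly (W : ℕ) : Poly := [(1, [nm W 0]), (-1, [])]

/-- The formula for the first `n` constraints. -/
def FF (W : ℕ) (A B C D : ℕ → ℕ) : List ℕ → Fm
  | [] => .not (.eq (opoly W))
  | c :: l => .or (.not (.eq (cpoly W (A c) (B c) (C c) (D c)))) (FF W A B C D l)

theorem FF_holds (W : ℕ) (A B C D : ℕ → ℕ) (ρ : List Bool → ℝ) : ∀ l : List ℕ,
    (FF W A B C D l).Holds ρ ↔ ¬ (ρ (nm W 0) = 1 ∧ ∀ c ∈ l,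
      ρ (nm W (A c)) * ρ (nm W (B c)) + ρ (nm W (C c)) = ρ (nm W (D c)))
  | [] => by
    simp only [FF, Fm.Holds, Poly.eval, opoly, Mono.eval, List.map_cons, List.map_nil,
      List.prod_cons, List.prod_nil, List.sum_cons, List.sum_nil, List.not_mem_nil]
    push_cast
    constructor
    · intro h h'
      apply h
      rw [h'.1]; norm_num
    · intro h h'
      apply h
      refine ⟨by linarith, by simp⟩
  | c :: l => by
    simp only [FF, Fm.Holds, FF_holds W A B C D ρ l, Poly.eval, cpoly, Mono.eval, List.map_cons,
      List.map_nil, List.prod_cons, List.prod_nil, List.sum_cons, List.sum_nil, List.mem_cons,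
      forall_eq_or_imp]
    push_cast
    have : (1 * (ρ (nm W (A c)) * (ρ (nm W (B c)) * 1)) + (1 * (ρ (nm W (C c)) * 1) +
      (-1 * (ρ (nm W (D c)) * 1) + 0)) = 0) ↔
      (ρ (nm W (A c)) * ρ (nm W (B c)) + ρ (nm W (C c)) = ρ (nm W (D c))) := by
      constructor
      · intro h; linarith
      · intro h; linarith
    rw [this]
    tauto

/-- The letters of a block, as numbers. -/
def bl (W a b c d j : ℕ) : ℕ :=
  if j = 0 then 6 else if j = 1 then 7 else if j = 2 then 5 else if j = 3 then 2 else
  if j = 4 then 1 else if j = 5 then 4 else
  if j < 6 + W then (if j - 6 < a then 1 else 0) else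
  if j = 6 + W then 4 else
  if j < 7 + 2 * W then (if j - (7 + W) < b then 1 else 0) else
  if j = 7 + 2 * W then 2 else if j = 8 + 2 * W then 1 else if j = 9 + 2 * W then 4 else
  if j < 10 + 3 * W then (if j - (10 + 2 * W) < c then 1 else 0) else
  if j = 10 + 3 * W then 3 else if j = 11 + 3 * W then 1 else if j = 12 + 3 * W then 4 else
  (if j - (13 + 3 * W) < d then 1 else 0)

/-- The letters of the last block. -/
def fb (W j : ℕ) : ℕ :=
  if j = 0 then 7 else if j = 1 then 5 else if j = 2 then 2 else if j = 3 then 1 else
  if j = 4 then 4 else if j < 5 + W then 0 else if j = 5 + W then 3 else 1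

/-- Decoding letters. -/
def dec : ℕ → Sym
  | 0 => .b0
  | 1 => .b1
  | 2 => .plus
  | 3 => .minus
  | 4 => .var
  | 5 => .eq
  | 6 => .or
  | _ => .not

theorem dec_min (v : ℕ) : dec (min v 7) = dec v := by
  by_cases h : v ≤ 7
  · rw [min_eq_left h]
  · rw [min_eq_right (by omega)]
    match v, h with
    | v + 8, _ => rfl

theorem range_map_add {α : Type*} (a b : ℕ) (g : ℕ → α) : (List.range (a + b)).map g =
    (List.range a).map g ++ (List.range b).map (fun i => g (a + i)) := by
  rw [List.range_add, List.map_append, List.map_map]
  rfl

theorem range_map_mul {α : Type*} (n L : ℕ) (g : ℕ → α) : (List.range (n * L)).map g =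
    (List.range n).flatMap (fun c => (List.range L).map (fun j => g (c * L + j))) := by
  induction n with
  | zero => simp
  | succ n ih =>
    rw [Nat.succ_mul, range_map_add, ih, List.range_succ, List.flatMap_append]
    simp

theorem nm_map (W v : ℕ) (g : ℕ → Sym) (h : ∀ i, i < W → g i = dec (if i < v then 1 else 0)) :
    (List.range W).map g = (nm W v).map bitSym := by
  rw [nm, List.map_map]
  refine List.map_congr_left fun i hi => ?_
  rw [List.mem_range] at hi
  rw [h i hi]
  by_cases hv : i < v <;> simp [hv, dec, bitSym]

theorem block_eq (W a b c d : ℕ) : (List.range (13 + 4 * W)).map (fun j => dec (bl W a b c d j)) =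
    Sym.or :: Sym.not :: Sym.eq :: Poly.enc (cpoly W a b c d) := by
  have e : 13 + 4 * W = 6 + (W + (1 + (W + (3 + (W + (3 + W)))))) := by ring
  rw [e, range_map_add, range_map_add, range_map_add, range_map_add, range_map_add,
    range_map_add, range_map_add]
  rw [nm_map W a (fun i => dec (bl W a b c d (6 + i))) (fun i hi => by
    unfold bl
    congr 1
    rw [if_neg (by omega), if_neg (by omega), if_neg (by omega), if_neg (by omega),
      if_neg (by omega), if_neg (by omega), if_pos (by omega)]
    congr 1
    simp)]
  rw [nm_map W b (fun i => dec (bl W a b c d (6 + (W + (1 + i))))) (fun i hi => by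
    unfold bl
    congr 1
    rw [if_neg (by omega), if_neg (by omega), if_neg (by omega), if_neg (by omega),
      if_neg (by omega), if_neg (by omega), if_neg (by omega), if_neg (by omega),
      if_pos (by omega)]
    have : 6 + (W + (1 + i)) - (7 + W) = i := by omega
    rw [this])]
  rw [nm_map W c (fun i => dec (bl W a b c d (6 + (W + (1 + (W + (3 + i))))))) (fun i hi => by
    unfold bl
    congr 1
    rw [if_neg (by omega), if_neg (by omega), if_neg (by omega), if_neg (by omega),
      if_neg (by omega), if_neg (by omega), if_neg (by omega), if_neg (by omega),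
      if_neg (by omega), if_neg (by omega), if_neg (by omega), if_neg (by omega),
      if_pos (by omega)]
    have : 6 + (W + (1 + (W + (3 + i)))) - (10 + 2 * W) = i := by omega
    rw [this])]
  rw [nm_map W d (fun i => dec (bl W a b c d (6 + (W + (1 + (W + (3 + (W + (3 + i)))))))))
    (fun i hi => by
    unfold bl
    congr 1
    rw [if_neg (by omega), if_neg (by omega), if_neg (by omega), if_neg (by omega),
      if_neg (by omega), if_neg (by omega), if_neg (by omega), if_neg (by omega),
      if_neg (by omega), if_neg (by omega), if_neg (by omega), if_neg (by omega),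
      if_neg (by omega), if_neg (by omega), if_neg (by omega), if_neg (by omega)]
    have : 6 + (W + (1 + (W + (3 + (W + (3 + i)))))) - (13 + 3 * W) = i := by omega
    rw [this])]
  have s1 : (List.range 6).map (fun j => dec (bl W a b c d j)) =
      [Sym.or, Sym.not, Sym.eq, Sym.plus, Sym.b1, Sym.var] := by
    simp [List.range_succ, bl, dec]
  have s2 : (List.range 1).map (fun i => dec (bl W a b c d (6 + (W + i)))) = [Sym.var] := by
    simp only [List.range_one, List.map_cons, List.map_nil]
    unfold bl
    rw [if_neg (by omega), if_neg (by omega), if_neg (by omega), if_neg (by omega),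
      if_neg (by omega), if_neg (by omega), if_neg (by omega), if_pos (by omega)]
    rfl
  have t : ∀ g : ℕ → Sym, (List.range 3).map g = [g 0, g 1, g 2] := by
    intro g; rfl
  have s3 : (List.range 3).map (fun i => dec (bl W a b c d (6 + (W + (1 + (W + i)))))) =
      [Sym.plus, Sym.b1, Sym.var] := by
    rw [t]
    have h0 : bl W a b c d (6 + (W + (1 + (W + 0)))) = 2 := by
      unfold bl
      rw [if_neg (by omega), if_neg (by omega), if_neg (by omega), if_neg (by omega),
        if_neg (by omega), if_neg (by omega), if_neg (by omega), if_neg (by omega),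
        if_neg (by omega), if_pos (by omega)]
    have h1 : bl W a b c d (6 + (W + (1 + (W + 1)))) = 1 := by
      unfold bl
      rw [if_neg (by omega), if_neg (by omega), if_neg (by omega), if_neg (by omega),
        if_neg (by omega), if_neg (by omega), if_neg (by omega), if_neg (by omega),
        if_neg (by omega), if_neg (by omega), if_pos (by omega)]
    have h2 : bl W a b c d (6 + (W + (1 + (W + 2)))) = 4 := by
      unfold bl
      rw [if_neg (by omega), if_neg (by omega), if_neg (by omega), if_neg (by omega),
        if_neg (by omega), if_neg (by omega), if_neg (by omega), if_neg (by omega),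
        if_neg (by omega), if_neg (by omega), if_neg (by omega), if_pos (by omega)]
    rw [h0, h1, h2]
    rfl
  have s4 : (List.range 3).map (fun i => dec (bl W a b c d
      (6 + (W + (1 + (W + (3 + (W + i)))))))) = [Sym.minus, Sym.b1, Sym.var] := by
    rw [t]
    have h0 : bl W a b c d (6 + (W + (1 + (W + (3 + (W + 0)))))) = 3 := by
      unfold bl
      rw [if_neg (by omega), if_neg (by omega), if_neg (by omega), if_neg (by omega),
        if_neg (by omega), if_neg (by omega), if_neg (by omega), if_neg (by omega),
        if_neg (by omega), if_neg (by omega), if_neg (by omega), if_neg (by omega),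
        if_neg (by omega), if_pos (by omega)]
    have h1 : bl W a b c d (6 + (W + (1 + (W + (3 + (W + 1)))))) = 1 := by
      unfold bl
      rw [if_neg (by omega), if_neg (by omega), if_neg (by omega), if_neg (by omega),
        if_neg (by omega), if_neg (by omega), if_neg (by omega), if_neg (by omega),
        if_neg (by omega), if_neg (by omega), if_neg (by omega), if_neg (by omega),
        if_neg (by omega), if_neg (by omega), if_pos (by omega)]
    have h2 : bl W a b c d (6 + (W + (1 + (W + (3 + (W + 2)))))) = 4 := by
      unfold bl
      rw [if_neg (by omega), if_neg (by omega), if_neg (by omega), if_neg (by omega),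
        if_neg (by omega), if_neg (by omega), if_neg (by omega), if_neg (by omega),
        if_neg (by omega), if_neg (by omega), if_neg (by omega), if_neg (by omega),
        if_neg (by omega), if_neg (by omega), if_neg (by omega), if_pos (by omega)]
    rw [h0, h1, h2]
    rfl
  rw [s1, s2, s3, s4]
  simp [Poly.enc, cpoly, Mono.enc, bitSym]

theorem final_eq (W : ℕ) : (List.range (7 + W)).map (fun j => dec (fb W j)) =
    Sym.not :: Sym.eq :: Poly.enc (opoly W) := by
  have e : 7 + W = 5 + (W + 2) := by ring
  rw [e, range_map_add, range_map_add]
  rw [nm_map W 0 (fun i => dec (fb W (5 + i))) (fun i hi => by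
    unfold fb
    congr 1
    rw [if_neg (by omega), if_neg (by omega), if_neg (by omega), if_neg (by omega),
      if_neg (by omega), if_pos (by omega)]
    simp)]
  have s1 : (List.range 5).map (fun j => dec (fb W j)) =
      [Sym.not, Sym.eq, Sym.plus, Sym.b1, Sym.var] := by
    simp [List.range_succ, fb, dec]
  have t : ∀ g : ℕ → Sym, (List.range 2).map g = [g 0, g 1] := by
    intro g; rfl
  have s2 : (List.range 2).map (fun i => dec (fb W (5 + (W + i)))) = [Sym.minus, Sym.b1] := by
    rw [t]
    have h0 : fb W (5 + (W + 0)) = 3 := by
      unfold fb
      rw [if_neg (by omega), if_neg (by omega), if_neg (by omega), if_neg (by omega),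
        if_neg (by omega), if_neg (by omega), if_pos (by omega)]
    have h1 : fb W (5 + (W + 1)) = 1 := by
      unfold fb
      rw [if_neg (by omega), if_neg (by omega), if_neg (by omega), if_neg (by omega),
        if_neg (by omega), if_neg (by omega), if_neg (by omega)]
    rw [h0, h1]
    rfl
  rw [s1, s2]
  simp [Poly.enc, opoly, Mono.enc, bitSym]

theorem FF_enc (W : ℕ) (A B C D : ℕ → ℕ) : ∀ l : List ℕ, (FF W A B C D l).enc =
    l.flatMap (fun c => Sym.or :: Sym.not :: Sym.eq :: Poly.enc (cpoly W (A c) (B c) (C c) (D c))) ++
      Sym.not :: Sym.eq :: Poly.enc (opoly W)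
  | [] => by simp [FF, Fm.enc]
  | c :: l => by simp [FF, Fm.enc, FF_enc W A B C D l]

/-- The letters of the output. -/
def ol (n W : ℕ) (A B C D : ℕ → ℕ) (i : ℕ) : ℕ :=
  if i < n * (13 + 4 * W) then
    bl W (A (i / (13 + 4 * W))) (B (i / (13 + 4 * W))) (C (i / (13 + 4 * W)))
      (D (i / (13 + 4 * W))) (i % (13 + 4 * W))
  else fb W (i - n * (13 + 4 * W))

theorem out_eq (n W : ℕ) (A B C D : ℕ → ℕ) :
    (FF W A B C D (List.range n)).enc =
      (List.range (n * (13 + 4 * W) + (7 + W))).map (fun i => dec (ol n W A B C D i)) := by
  rw [FF_enc, range_map_add, range_map_mul, ← final_eq]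
  congr 1
  · have hg : ∀ c ∈ List.range n,
        (Sym.or :: Sym.not :: Sym.eq :: Poly.enc (cpoly W (A c) (B c) (C c) (D c))) =
          (List.range (13 + 4 * W)).map (fun j => dec (ol n W A B C D (c * (13 + 4 * W) + j))) := by
      intro c hc
      rw [List.mem_range] at hc
      rw [← block_eq]
      refine List.map_congr_left fun j hj => ?_
      rw [List.mem_range] at hj
      unfold ol
      have h1 : c * (13 + 4 * W) + j < n * (13 + 4 * W) := by
        have : (c + 1) * (13 + 4 * W) ≤ n * (13 + 4 * W) := Nat.mul_le_mul_right _ hc
        have e : (c + 1) * (13 + 4 * W) = c * (13 + 4 * W) + (13 + 4 * W) := by ring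
        omega
      have h2 : (c * (13 + 4 * W) + j) / (13 + 4 * W) = c := by
        rw [Nat.add_comm, Nat.add_mul_div_right _ _ (by omega), Nat.div_eq_of_lt hj, Nat.zero_add]
      have h3 : (c * (13 + 4 * W) + j) % (13 + 4 * W) = j := by
        rw [Nat.add_comm, Nat.add_mul_mod_self_right, Nat.mod_eq_of_lt hj]
      rw [if_pos h1, h2, h3]
    rw [List.flatMap_def, List.flatMap_def, List.map_congr_left hg]
  · refine List.map_congr_left fun i _ => ?_
    unfold ol
    rw [if_neg (by omega)]
    congr 2
    omega

theorem uf_bl {Γ : Type} {W a b c d j : List Γ → (ℕ → ℕ) → ℕ} (hW : UF W) (ha : UF a) (hb : UF b)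
    (hc : UF c) (hd : UF d) (hj : UF j) :
    UF (fun x e => bl (W x e) (a x e) (b x e) (c x e) (d x e) (j x e)) := by
  unfold bl
  repeat' first
      | assumption
      | exact UF.const _
      | exact UF.var _
      | with_reducible apply UP.lt
      | with_reducible apply UP.le
      | with_reducible apply UP.eq
      | with_reducible apply UF.add
      | with_reducible apply UF.mul
      | with_reducible apply UF.sub
      | with_reducible apply UF.div
      | with_reducible apply UF.mod
      | with_reducible apply UF.ite

theorem uf_fb {Γ : Type} {W j : List Γ → (ℕ → ℕ) → ℕ} (hW : UF W) (hj : UF j) :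
    UF (fun x e => fb (W x e) (j x e)) := by
  unfold fb
  repeat' first
      | assumption
      | exact UF.const _
      | exact UF.var _
      | with_reducible apply UP.lt
      | with_reducible apply UP.le
      | with_reducible apply UP.eq
      | with_reducible apply UF.add
      | with_reducible apply UF.mul
      | with_reducible apply UF.sub
      | with_reducible apply UF.div
      | with_reducible apply UF.mod
      | with_reducible apply UF.ite

/-- (P2) -/
theorem flat_reduction {Γ : Type} [Fintype Γ] (L : Set (List Γ)) (n : List Γ → ℕ)
    (A B C D : List Γ → ℕ → ℕ) (hn : UF (fun x _ => n x)) (hA : UF (fun x e => A x (e 0)))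
    (hB : UF (fun x e => B x (e 0))) (hC : UF (fun x e => C x (e 0))) (hD : UF (fun x e => D x (e 0)))
    (h : ∀ x, x ∈ L ↔ ¬ ∃ α : ℕ → ℝ, α 0 = 1 ∧ ∀ c, c < n x →
      α (A x c) * α (B x c) + α (C x c) = α (D x c)) : InForallR L := by
  classical
  -- the width
  let W : List Γ → ℕ := fun x => ∑ c ∈ Finset.range (n x), (A x c + B x c + C x c + D x c)
  have hW : UF (fun x (_ : ℕ → ℕ) => W x) := by
    show UF (fun x (_ : ℕ → ℕ) => ∑ c ∈ Finset.range (n x), (A x c + B x c + C x c + D x c))
    refine UF.sum hn ?_
    exact ((hA.add hB).add hC).add hD
  have hWle : ∀ x c, c < n x → A x c ≤ W x ∧ B x c ≤ W x ∧ C x c ≤ W x ∧ D x c ≤ W x := by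
    intro x c hc
    have := Finset.single_le_sum (f := fun c => A x c + B x c + C x c + D x c)
      (fun _ _ => Nat.zero_le _) (Finset.mem_range.2 hc)
    change A x c + B x c + C x c + D x c ≤ W x at this
    omega
  let F : List Γ → Fm := fun x => FF (W x) (A x) (B x) (C x) (D x) (List.range (n x))
  refine ⟨fun x => (F x).enc, ?_, ?_⟩
  · -- polynomial time
    have hm : UF (fun x (_ : ℕ → ℕ) => n x * (13 + 4 * W x) + (7 + W x)) := by
      repeat' first
          | assumption
          | exact UF.const _
          | exact UF.var _
          | with_reducible apply UP.lt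
          | with_reducible apply UP.le
          | with_reducible apply UP.eq
          | with_reducible apply UF.add
          | with_reducible apply UF.mul
          | with_reducible apply UF.sub
          | with_reducible apply UF.div
          | with_reducible apply UF.mod
          | with_reducible apply UF.ite
    have ht : UF (fun x (e : ℕ → ℕ) => ol (n x) (W x) (A x) (B x) (C x) (D x) (e 0)) := by
      unfold ol
      have hi : UF (fun x (e : ℕ → ℕ) => e 0 / (13 + 4 * W x)) := by repeat' first
          | assumption
          | exact UF.const _
          | exact UF.var _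
          | with_reducible apply UP.lt
          | with_reducible apply UP.le
          | with_reducible apply UP.eq
          | with_reducible apply UF.add
          | with_reducible apply UF.mul
          | with_reducible apply UF.sub
          | with_reducible apply UF.div
          | with_reducible apply UF.mod
          | with_reducible apply UF.ite
      have hr : UF (fun x (e : ℕ → ℕ) => e 0 % (13 + 4 * W x)) := by repeat' first
          | assumption
          | exact UF.const _
          | exact UF.var _
          | with_reducible apply UP.lt
          | with_reducible apply UP.le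
          | with_reducible apply UP.eq
          | with_reducible apply UF.add
          | with_reducible apply UF.mul
          | with_reducible apply UF.sub
          | with_reducible apply UF.div
          | with_reducible apply UF.mod
          | with_reducible apply UF.ite
      have hA' : UF (fun x (e : ℕ → ℕ) => A x (e 0 / (13 + 4 * W x))) := UF.comp₁ hA hi
      have hB' : UF (fun x (e : ℕ → ℕ) => B x (e 0 / (13 + 4 * W x))) := UF.comp₁ hB hi
      have hC' : UF (fun x (e : ℕ → ℕ) => C x (e 0 / (13 + 4 * W x))) := UF.comp₁ hC hi
      have hD' : UF (fun x (e : ℕ → ℕ) => D x (e 0 / (13 + 4 * W x))) := UF.comp₁ hD hi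
      have hl : UP (fun x (e : ℕ → ℕ) => e 0 < n x * (13 + 4 * W x)) := by repeat' first
          | assumption
          | exact UF.const _
          | exact UF.var _
          | with_reducible apply UP.lt
          | with_reducible apply UP.le
          | with_reducible apply UP.eq
          | with_reducible apply UF.add
          | with_reducible apply UF.mul
          | with_reducible apply UF.sub
          | with_reducible apply UF.div
          | with_reducible apply UF.mod
          | with_reducible apply UF.ite
      refine UF.ite hl (uf_bl hW hA' hB' hC' hD' hr) (uf_fb hW ?_)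
      repeat' first
          | assumption
          | exact UF.const _
          | exact UF.var _
          | with_reducible apply UP.lt
          | with_reducible apply UP.le
          | with_reducible apply UP.eq
          | with_reducible apply UF.add
          | with_reducible apply UF.mul
          | with_reducible apply UF.sub
          | with_reducible apply UF.div
          | with_reducible apply UF.mod
          | with_reducible apply UF.ite
    obtain ⟨m, hm⟩ := hm
    obtain ⟨t, ht⟩ := ht
    refine polyTime_of_terms _ _ _ m t 7 dec fun x => ?_
    change (F x).enc = (List.range (m.eval x (fun _ => 0))).map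
      (fun i => dec (min (t.eval x (cons i (fun _ => 0))) 7))
    rw [hm, out_eq]
    refine List.map_congr_left fun i _ => ?_
    rw [ht, dec_min]
    rfl
  · intro x
    rw [h x]
    change _ ↔ (F x).enc ∈ UTR
    constructor
    · intro hx
      refine ⟨F x, rfl, fun ρ => ?_⟩
      rw [FF_holds]
      rintro ⟨h1, h2⟩
      apply hx
      exact ⟨fun v => ρ (nm (W x) v), h1, fun c hc => h2 c (List.mem_range.2 hc)⟩
    · rintro ⟨f, hf, hall⟩
      have hfF : F x = f := Fm.enc_injective hf
      subst hfF
      rintro ⟨α, h1, h2⟩
      have h3 := hall (fun w => α (w.count true))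
      rw [FF_holds] at h3
      apply h3
      refine ⟨?_, fun c hc => ?_⟩
      · rw [count_nm (W x) 0 (Nat.zero_le _)]
        exact h1
      · rw [List.mem_range] at hc
        obtain ⟨a1, a2, a3, a4⟩ := hWle x c hc
        rw [count_nm _ _ a1, count_nm _ _ a2, count_nm _ _ a3, count_nm _ _ a4]
        exact h2 c hc

end Pool.Agent.AllR
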