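import Mathlib
import Pool.Agent.PT.UF
import Pool.Agent.AllR.Flat

/-!
# A shallow language for existential real conditions: the primitive closure properties
-/

set_option autoImplicit false
set_option linter.unreachableTactic false
set_option linter.unusedTactic false

namespace Pool.Agent.AllR

open Pool.Agent.PT

variable {Γ : Type}

/-! ### Environments -/

/-- Uniform environments. -/
def UE (E : List Γ → (ℕ → ℕ) → (ℕ → ℕ)) : Prop := ∀ i, UF (fun x e => E x e i)

theorem UE.id : UE (Γ := Γ) (fun _ e => e) := fun i => UF.var i

theorem UE.tail : UE (Γ := Γ) (fun _ e i => e (i + 1)) := fun i => UF.var (i + 1)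

theorem UE.cons {g : List Γ → (ℕ → ℕ) → ℕ} {E : List Γ → (ℕ → ℕ) → (ℕ → ℕ)} (hg : UF g)
    (hE : UE E) : UE (fun x e => cons (g x e) (E x e)) := by
  intro i
  cases i with
  | zero => exact hg
  | succ i => exact hE i

theorem UF.app {f : List Γ → (ℕ → ℕ) → ℕ} {E : List Γ → (ℕ → ℕ) → (ℕ → ℕ)} (hf : UF f)
    (hE : UE E) : UF (fun x e => f x (E x e)) := UF.subst hf (fun i x e => E x e i) hE

theorem UP.app {P : List Γ → (ℕ → ℕ) → Prop} {E : List Γ → (ℕ → ℕ) → (ℕ → ℕ)} (hP : UP P)
    (hE : UE E) : UP (fun x e => P x (E x e)) := by
  classical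
  exact UF.app (f := fun x e => if P x e then 1 else 0) (hP.congr fun _ _ => Iff.rfl) hE

theorem UE.comp {E F : List Γ → (ℕ → ℕ) → (ℕ → ℕ)} (hE : UE E) (hF : UE F) :
    UE (fun x e => F x (E x e)) := fun i => UF.app (hF i) hE

theorem cons_tail (e : ℕ → ℕ) : cons (e 0) (fun i => e (i + 1)) = e := by
  funext i; cases i <;> rfl

/-! ### Coded real variables -/

/-- Merging two assignments. -/
def mg (α β : ℕ → ℝ) (v : ℕ) : ℝ := if v % 2 = 0 then α (v / 2) else β (v / 2)

@[simp] theorem mg_even (α β : ℕ → ℝ) (k : ℕ) : mg α β (2 * k) = α k := by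
  unfold mg
  rw [if_pos (by omega)]
  congr 1
  omega

@[simp] theorem mg_odd (α β : ℕ → ℝ) (k : ℕ) : mg α β (2 * k + 1) = β k := by
  unfold mg
  rw [if_neg (by omega)]
  congr 1
  omega

/-- The value of a coded variable: two constants, then two blocks of variables. -/
noncomputable def val (α β : ℕ → ℝ) (v : ℕ) : ℝ :=
  if v = 0 then 0 else if v = 1 then 1 else
    if v % 2 = 0 then α ((v - 2) / 2) else β ((v - 2) / 2)

@[simp] theorem val_zero (α β : ℕ → ℝ) : val α β 0 = 0 := rfl
@[simp] theorem val_one (α β : ℕ → ℝ) : val α β 1 = 1 := rfl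
@[simp] theorem val_a (α β : ℕ → ℝ) (k : ℕ) : val α β (2 * k + 2) = α k := by
  unfold val
  rw [if_neg (by omega), if_neg (by omega), if_pos (by omega)]
  congr 1
  omega
@[simp] theorem val_b (α β : ℕ → ℝ) (k : ℕ) : val α β (2 * k + 3) = β k := by
  unfold val
  rw [if_neg (by omega), if_neg (by omega), if_neg (by omega)]
  congr 1
  omega

/-- Renaming coded variables. -/
def rt (fa fb : ℕ → ℕ) (v : ℕ) : ℕ :=
  if v = 0 then 0 else if v = 1 then 1 else
    if v % 2 = 0 then fa ((v - 2) / 2) else fb ((v - 2) / 2)

theorem val_rt (α β : ℕ → ℝ) (fa fb : ℕ → ℕ) (v : ℕ) :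
    val α β (rt fa fb v) = val (fun k => val α β (fa k)) (fun k => val α β (fb k)) v := by
  unfold rt
  by_cases h0 : v = 0
  · simp [h0]
  · by_cases h1 : v = 1
    · simp [h1]
    · rw [if_neg h0, if_neg h1]
      conv_rhs => unfold val
      rw [if_neg h0, if_neg h1]
      split_ifs <;> rfl

theorem uf_rt {fa fb : List Γ → (ℕ → ℕ) → ℕ → ℕ} {v : List Γ → (ℕ → ℕ) → ℕ}
    (ha : UF (fun x e => fa x (fun i => e (i + 1)) (e 0)))
    (hb : UF (fun x e => fb x (fun i => e (i + 1)) (e 0))) (hv : UF v) :
    UF (fun x e => rt (fa x e) (fb x e) (v x e)) := by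
  unfold rt
  have hk : UF (fun x e => (v x e - 2) / 2) := by repeat' first
      | assumption
      | exact UF.const _
      | exact UF.var _
      | with_reducible apply UP.lt
      | with_reducible apply UP.le
      | with_reducible apply UP.eq
      | with_reducible apply UF.add
      | with_reducible apply UF.mul
      | with_reducible apply UF.sub
      | with_reducible apply UF.div
      | with_reducible apply UF.mod
      | with_reducible apply UF.ite
  have hP0 : UP (fun x e => v x e = 0) := by repeat' first
      | assumption
      | exact UF.const _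
      | exact UF.var _
      | with_reducible apply UP.lt
      | with_reducible apply UP.le
      | with_reducible apply UP.eq
      | with_reducible apply UF.add
      | with_reducible apply UF.mul
      | with_reducible apply UF.sub
      | with_reducible apply UF.div
      | with_reducible apply UF.mod
      | with_reducible apply UF.ite
  have hP1 : UP (fun x e => v x e = 1) := by repeat' first
      | assumption
      | exact UF.const _
      | exact UF.var _
      | with_reducible apply UP.lt
      | with_reducible apply UP.le
      | with_reducible apply UP.eq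
      | with_reducible apply UF.add
      | with_reducible apply UF.mul
      | with_reducible apply UF.sub
      | with_reducible apply UF.div
      | with_reducible apply UF.mod
      | with_reducible apply UF.ite
  have hP2 : UP (fun x e => v x e % 2 = 0) := by repeat' first
      | assumption
      | exact UF.const _
      | exact UF.var _
      | with_reducible apply UP.lt
      | with_reducible apply UP.le
      | with_reducible apply UP.eq
      | with_reducible apply UF.add
      | with_reducible apply UF.mul
      | with_reducible apply UF.sub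
      | with_reducible apply UF.div
      | with_reducible apply UF.mod
      | with_reducible apply UF.ite
  exact UF.ite hP0 (UF.const 0) (UF.ite hP1 (UF.const 1) (UF.ite hP2 (UF.bind hk ha)
    (UF.bind hk hb)))

/-! ### Systems -/

/-- A uniform family of flat constraints. -/
structure Sys (Γ : Type) where
  n : List Γ → (ℕ → ℕ) → ℕ
  V : ℕ → List Γ → (ℕ → ℕ) → ℕ
  hn : UF n
  hV : ∀ j, UF (V j)

/-- The flat constraint. -/
def Ct (w : ℕ → ℝ) : Prop := w 0 * w 1 + w 2 = w 3

/-- Satisfaction. -/
def Sys.Sat (S : Sys Γ) (x : List Γ) (e : ℕ → ℕ) (α β : ℕ → ℝ) : Prop :=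
  ∀ c, c < S.n x e → Ct (fun j => val α β (S.V j x (cons c e)))

/-- Relations `R x e α` (input word, unary index environment, real assignment) defined by a uniform
family of flat constraints with existentially quantified extra real variables. -/
def RE (R : List Γ → (ℕ → ℕ) → (ℕ → ℝ) → Prop) : Prop :=
  ∃ S : Sys Γ, ∀ x e α, R x e α ↔ ∃ β : ℕ → ℝ, S.Sat x e α β

theorem RE.congr {R R' : List Γ → (ℕ → ℕ) → (ℕ → ℝ) → Prop} (hR : RE R)
    (h : ∀ x e α, R x e α ↔ R' x e α) : RE R' := by
  obtain ⟨S, hS⟩ := hR
  exact ⟨S, fun x e α => (h x e α).symm.trans (hS x e α)⟩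

/-- A coded value, constants included. -/
noncomputable def vl (α : ℕ → ℝ) (v : ℕ) : ℝ := if v = 0 then 0 else if v = 1 then 1 else α (v - 2)

/-- Atomic conditions. -/
theorem RE.atom {a b c d : List Γ → (ℕ → ℕ) → ℕ} (ha : UF a) (hb : UF b) (hc : UF c) (hd : UF d) :
    RE (fun x e α => vl α (a x e) * vl α (b x e) + vl α (c x e) = vl α (d x e)) := by
  let cd : ℕ → ℕ := fun v => if v = 0 then 0 else if v = 1 then 1 else 2 * (v - 2) + 2
  have hcd : ∀ {f : List Γ → (ℕ → ℕ) → ℕ}, UF f → UF (fun x e => cd (f x (fun i => e (i + 1)))) := by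
    intro f hf
    have hf' := UF.app hf UE.tail
    show UF (fun x e => if f x (fun i => e (i + 1)) = 0 then 0 else
      if f x (fun i => e (i + 1)) = 1 then 1 else 2 * (f x (fun i => e (i + 1)) - 2) + 2)
    repeat' first
        | assumption
        | exact UF.const _
        | exact UF.var _
        | with_reducible apply UP.lt
        | with_reducible apply UP.le
        | with_reducible apply UP.eq
        | with_reducible apply UF.add
        | with_reducible apply UF.mul
        | with_reducible apply UF.sub
        | with_reducible apply UF.div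
        | with_reducible apply UF.mod
        | with_reducible apply UF.ite
  have hval : ∀ (α β : ℕ → ℝ) v, val α β (cd v) = vl α v := by
    intro α β v
    simp only [cd, vl]
    split_ifs
    · rfl
    · rfl
    · simp
  refine ⟨⟨fun _ _ => 1, fun j x e => cd ((match j with
    | 0 => a
    | 1 => b
    | 2 => c
    | _ => d) x (fun i => e (i + 1))), UF.const 1, fun j => ?_⟩, fun x e α => ?_⟩
  · match j with
    | 0 => exact hcd ha
    | 1 => exact hcd hb
    | 2 => exact hcd hc
    | _ + 3 => exact hcd hd
  · unfold Sys.Sat Ct
    simp only [hval]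
    constructor
    · intro h
      refine ⟨fun _ => 0, fun c' _ => h⟩
    · rintro ⟨β, hβ⟩
      exact hβ 0 (by norm_num)

/-- Conditions on the input and the indices only. -/
theorem RE.up {P : List Γ → (ℕ → ℕ) → Prop} (hP : UP P) : RE (fun x e _ => P x e) := by
  classical
  refine ⟨⟨fun x e => if P x e then 0 else 1, fun j _ _ => if j = 3 then 1 else 0, ?_, fun j =>
    UF.const _⟩, fun x e α => ?_⟩
  · exact UF.ite hP (UF.const 0) (UF.const 1)
  · unfold Sys.Sat Ct
    constructor
    · intro h
      refine ⟨fun _ => 0, fun c hc => ?_⟩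
      simp [h] at hc
    · rintro ⟨β, hβ⟩
      by_contra h
      have := hβ 0 (by simp [h])
      simp at this

theorem RE.guard {P : List Γ → (ℕ → ℕ) → Prop} {R : List Γ → (ℕ → ℕ) → (ℕ → ℝ) → Prop}
    (hP : UP P) (hR : RE R) : RE (fun x e α => P x e → R x e α) := by
  classical
  obtain ⟨S, hS⟩ := hR
  refine ⟨⟨fun x e => if P x e then S.n x e else 0, S.V, UF.ite hP S.hn (UF.const 0), S.hV⟩,
    fun x e α => ?_⟩
  unfold Sys.Sat
  simp only
  by_cases h : P x e
  · simp only [h, if_true, true_imp_iff]
    exact hS x e α
  · simp only [h, if_false, false_imp_iff, true_iff]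
    exact ⟨fun _ => 0, fun c hc => absurd hc (Nat.not_lt_zero _)⟩

theorem RE.and {R R' : List Γ → (ℕ → ℕ) → (ℕ → ℝ) → Prop} (hR : RE R) (hR' : RE R') :
    RE (fun x e α => R x e α ∧ R' x e α) := by
  classical
  obtain ⟨S, hS⟩ := hR
  obtain ⟨S', hS'⟩ := hR'
  let V : ℕ → List Γ → (ℕ → ℕ) → ℕ := fun j x e =>
    if e 0 < S.n x (fun i => e (i + 1)) then
      rt (fun k => 2 * k + 2) (fun k => 2 * (2 * k) + 3) (S.V j x e)
    else rt (fun k => 2 * k + 2) (fun k => 2 * (2 * k + 1) + 3)
      (S'.V j x (cons (e 0 - S.n x (fun i => e (i + 1))) (fun i => e (i + 1))))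
  have hV : ∀ j, UF (V j) := by
    intro j
    have h1 := UF.app S.hn UE.tail
    have h2 : UF (fun x e => e 0 - S.n x (fun i => e (i + 1))) := (UF.var 0).sub h1
    have h3 := UF.app (S'.hV j) (UE.cons h2 UE.tail)
    refine UF.ite (UP.lt (UF.var 0) h1) (uf_rt ?_ ?_ (S.hV j)) (uf_rt ?_ ?_ h3) <;> (repeat' first
        | assumption
        | exact UF.const _
        | exact UF.var _
        | with_reducible apply UP.lt
        | with_reducible apply UP.le
        | with_reducible apply UP.eq
        | with_reducible apply UF.add
        | with_reducible apply UF.mul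
        | with_reducible apply UF.sub
        | with_reducible apply UF.div
        | with_reducible apply UF.mod
        | with_reducible apply UF.ite)
  have key : ∀ x e α β, (Sys.mk (fun x e => S.n x e + S'.n x e) V (S.hn.add S'.hn) hV).Sat x e α β ↔
      S.Sat x e α (fun k => β (2 * k)) ∧ S'.Sat x e α (fun k => β (2 * k + 1)) := by
    intro x e α β
    unfold Sys.Sat
    simp only
    constructor
    · intro h
      constructor
      · intro c hc
        have := h c (by omega)
        simp only [V, cons_zero, cons_succ, if_pos hc, val_rt, val_a, val_b] at this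
        exact this
      · intro c hc
        have := h (S.n x e + c) (by omega)
        have hn : ¬ (S.n x e + c < S.n x e) := by omega
        simp only [V, cons_zero, cons_succ, if_neg hn, val_rt, val_a, val_b,
          Nat.add_sub_cancel_left] at this
        exact this
    · rintro ⟨h1, h2⟩ c hc
      by_cases hn : c < S.n x e
      · simp only [V, cons_zero, cons_succ, if_pos hn, val_rt, val_a, val_b]
        exact h1 c hn
      · simp only [V, cons_zero, cons_succ, if_neg hn, val_rt, val_a, val_b]
        exact h2 (c - S.n x e) (by omega)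
  refine ⟨Sys.mk (fun x e => S.n x e + S'.n x e) V (S.hn.add S'.hn) hV, fun x e α => ?_⟩
  simp only [key, hS, hS']
  constructor
  · rintro ⟨⟨β, h1⟩, β', h2⟩
    exact ⟨mg β β', by simpa using h1, by simpa using h2⟩
  · rintro ⟨β, h1, h2⟩
    exact ⟨⟨_, h1⟩, _, h2⟩

/-- Bounded universal quantification over indices. -/
theorem RE.ball {b : List Γ → (ℕ → ℕ) → ℕ} {R : List Γ → (ℕ → ℕ) → (ℕ → ℝ) → ℕ → Prop}
    (hb : UF b) (hR : RE (fun x e α => R x (fun i => e (i + 1)) α (e 0))) :
    RE (fun x e α => ∀ i, i < b x e → R x e α i) := by
  classical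
  obtain ⟨S, hS⟩ := hR
  have hS1 : ∀ x e α i, R x e α i ↔ ∃ β, S.Sat x (cons i e) α β := by
    intro x e α i
    exact hS x (cons i e) α
  let m : List Γ → (ℕ → ℕ) → ℕ := fun x e => ∑ i ∈ Finset.range (b x e), S.n x (cons i e)
  have hm : UF m := UF.sum' hb S.hn
  have hmt := UF.app hm UE.tail
  let q : List Γ → (ℕ → ℕ) → ℕ := fun x e => e 0 / m x (fun i => e (i + 1))
  let r : List Γ → (ℕ → ℕ) → ℕ := fun x e => e 0 % m x (fun i => e (i + 1))
  have hq : UF q := (UF.var 0).div hmt
  have hr : UF r := (UF.var 0).mod hmt
  have hE1 : UE (fun x e => cons (q x e) (fun i => e (i + 1))) := UE.cons hq UE.tail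
  have hE2 : UE (fun x e => cons (r x e) (cons (q x e) (fun i => e (i + 1)))) := UE.cons hr hE1
  let V : ℕ → List Γ → (ℕ → ℕ) → ℕ := fun j x e =>
    if r x e < S.n x (cons (q x e) (fun i => e (i + 1))) then
      rt (fun k => 2 * k + 2) (fun k => 2 * (if q x e < k then k * k + q x e else
        q x e * q x e + q x e + k) + 3)
        (S.V j x (cons (r x e) (cons (q x e) (fun i => e (i + 1)))))
    else 0
  have hV : ∀ j, UF (V j) := by
    intro j
    have hqt := UF.app hq UE.tail
    refine UF.ite (UP.lt hr (UF.app S.hn hE1)) (uf_rt ?_ ?_ (UF.app (S.hV j) hE2)) (UF.const 0)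
    · repeat' first
        | assumption
        | exact UF.const _
        | exact UF.var _
        | with_reducible apply UP.lt
        | with_reducible apply UP.le
        | with_reducible apply UP.eq
        | with_reducible apply UF.add
        | with_reducible apply UF.mul
        | with_reducible apply UF.sub
        | with_reducible apply UF.div
        | with_reducible apply UF.mod
        | with_reducible apply UF.ite
    · repeat' first
        | assumption
        | exact UF.const _
        | exact UF.var _
        | with_reducible apply UP.lt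
        | with_reducible apply UP.le
        | with_reducible apply UP.eq
        | with_reducible apply UF.add
        | with_reducible apply UF.mul
        | with_reducible apply UF.sub
        | with_reducible apply UF.div
        | with_reducible apply UF.mod
        | with_reducible apply UF.ite
  have key : ∀ x e α β, (Sys.mk (fun x e => b x e * m x e) V (hb.mul hm) hV).Sat x e α β ↔
      ∀ i, i < b x e → S.Sat x (cons i e) α (fun k => β (Nat.pair i k)) := by
    intro x e α β
    unfold Sys.Sat
    simp only
    have hpair : ∀ i k, (if i < k then k * k + i else i * i + i + k) = Nat.pair i k := fun i k => rfl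
    constructor
    · intro h i hi c hc
      have hmi : S.n x (cons i e) ≤ m x e := Finset.single_le_sum
        (f := fun i => S.n x (cons i e)) (fun _ _ => Nat.zero_le _) (Finset.mem_range.2 hi)
      have hlt : i * m x e + c < b x e * m x e := by
        have : (i + 1) * m x e ≤ b x e * m x e := Nat.mul_le_mul_right _ hi
        have e1 : (i + 1) * m x e = i * m x e + m x e := by ring
        omega
      have hq1 : q x (cons (i * m x e + c) e) = i := by
        change (i * m x e + c) / m x e = i
        rw [Nat.add_comm, Nat.add_mul_div_right _ _ (by omega), Nat.div_eq_of_lt (by omega),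
          Nat.zero_add]
      have hr1 : r x (cons (i * m x e + c) e) = c := by
        change (i * m x e + c) % m x e = c
        rw [Nat.add_comm, Nat.add_mul_mod_self_right, Nat.mod_eq_of_lt (by omega)]
      have := h _ hlt
      simp only [V, hq1, hr1, cons_succ, if_pos hc, val_rt, val_a, val_b, hpair] at this
      exact this
    · intro h c hc
      by_cases hn : r x (cons c e) < S.n x (cons (q x (cons c e)) e)
      · have hq2 : q x (cons c e) < b x e := by
          change c / m x e < b x e
          exact Nat.div_lt_of_lt_mul (by rw [Nat.mul_comm]; exact hc)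
        simp only [V, cons_succ, if_pos hn, val_rt, val_a, val_b, hpair]
        exact h _ hq2 _ hn
      · simp only [V, cons_succ, if_neg hn]
        simp [Ct]
  refine ⟨Sys.mk (fun x e => b x e * m x e) V (hb.mul hm) hV, fun x e α => ?_⟩
  simp only [key, hS1]
  constructor
  · intro h
    choose! β hβ using h
    refine ⟨fun t => β (Nat.unpair t).1 (Nat.unpair t).2, fun i hi => ?_⟩
    simpa using hβ i hi
  · rintro ⟨β, hβ⟩ i hi
    exact ⟨_, hβ i hi⟩

/-- An existentially quantified block of real variables. -/
theorem RE.exb {R : List Γ → (ℕ → ℕ) → (ℕ → ℝ) → (ℕ → ℝ) → Prop}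
    (hR : RE (fun x e α => R x e (fun v => α (2 * v)) (fun v => α (2 * v + 1)))) :
    RE (fun x e α => ∃ γ : ℕ → ℝ, R x e α γ) := by
  classical
  obtain ⟨S, hS⟩ := hR
  let V : ℕ → List Γ → (ℕ → ℕ) → ℕ := fun j x e =>
    rt (fun k => if k % 2 = 0 then 2 * (k / 2) + 2 else 2 * (2 * (k / 2)) + 3)
      (fun k => 2 * (2 * k + 1) + 3) (S.V j x e)
  have hV : ∀ j, UF (V j) := by
    intro j
    refine uf_rt ?_ ?_ (S.hV j) <;> (repeat' first
        | assumption
        | exact UF.const _
        | exact UF.var _
        | with_reducible apply UP.lt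
        | with_reducible apply UP.le
        | with_reducible apply UP.eq
        | with_reducible apply UF.add
        | with_reducible apply UF.mul
        | with_reducible apply UF.sub
        | with_reducible apply UF.div
        | with_reducible apply UF.mod
        | with_reducible apply UF.ite)
  have key : ∀ x e α β, (Sys.mk S.n V S.hn hV).Sat x e α β ↔
      S.Sat x e (mg α (fun k => β (2 * k))) (fun k => β (2 * k + 1)) := by
    intro x e α β
    unfold Sys.Sat
    have : ∀ v, val α β (rt (fun k => if k % 2 = 0 then 2 * (k / 2) + 2 else 2 * (2 * (k / 2)) + 3)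
      (fun k => 2 * (2 * k + 1) + 3) v) =
        val (mg α (fun k => β (2 * k))) (fun k => β (2 * k + 1)) v := by
      intro v
      rw [val_rt]
      congr 1
      · funext k
        unfold mg
        split_ifs
        · rw [val_a]
        · rw [val_b]
      · funext k
        rw [val_b]
    simp only [V, this]
  refine ⟨Sys.mk S.n V S.hn hV, fun x e α => ?_⟩
  simp only [key]
  constructor
  · rintro ⟨γ, hγ⟩
    have h1 := (hS x e (mg α γ)).1 (by simpa using hγ)
    obtain ⟨β, hβ⟩ := h1
    exact ⟨mg γ β, by simpa using hβ⟩
  · rintro ⟨β, hβ⟩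
    have h1 := (hS x e (mg α (fun k => β (2 * k)))).2 ⟨_, hβ⟩
    exact ⟨fun k => β (2 * k), by simpa using h1⟩

/-- Prepending a real. -/
def rcons (r : ℝ) (α : ℕ → ℝ) : ℕ → ℝ
  | 0 => r
  | n + 1 => α n

@[simp] theorem rcons_zero (r : ℝ) (α : ℕ → ℝ) : rcons r α 0 = r := rfl
@[simp] theorem rcons_succ (r : ℝ) (α : ℕ → ℝ) (n : ℕ) : rcons r α (n + 1) = α n := rfl

theorem rcons_tail (α : ℕ → ℝ) : rcons (α 0) (fun i => α (i + 1)) = α := by
  funext i; cases i <;> rfl

/-- An existentially quantified real variable. -/
theorem RE.exr {R : List Γ → (ℕ → ℕ) → (ℕ → ℝ) → ℝ → Prop}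
    (hR : RE (fun x e α => R x e (fun v => α (v + 1)) (α 0))) :
    RE (fun x e α => ∃ r : ℝ, R x e α r) := by
  classical
  obtain ⟨S, hS⟩ := hR
  let V : ℕ → List Γ → (ℕ → ℕ) → ℕ := fun j x e =>
    rt (fun k => if k = 0 then 3 else 2 * (k - 1) + 2)
      (fun k => 2 * (k + 1) + 3) (S.V j x e)
  have hV : ∀ j, UF (V j) := by
    intro j
    refine uf_rt ?_ ?_ (S.hV j) <;> (repeat' first
        | assumption
        | exact UF.const _
        | exact UF.var _
        | with_reducible apply UP.lt
        | with_reducible apply UP.le
        | with_reducible apply UP.eq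
        | with_reducible apply UF.add
        | with_reducible apply UF.mul
        | with_reducible apply UF.sub
        | with_reducible apply UF.div
        | with_reducible apply UF.mod
        | with_reducible apply UF.ite)
  have key : ∀ x e α β, (Sys.mk S.n V S.hn hV).Sat x e α β ↔
      S.Sat x e (rcons (β 0) α) (fun k => β (k + 1)) := by
    intro x e α β
    unfold Sys.Sat
    have : ∀ v, val α β (rt (fun k => if k = 0 then 3 else 2 * (k - 1) + 2)
      (fun k => 2 * (k + 1) + 3) v) =
        val (rcons (β 0) α) (fun k => β (k + 1)) v := by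
      intro v
      rw [val_rt]
      congr 1
      · funext k
        cases k with
        | zero => exact val_b α β 0
        | succ k =>
          simp only [Nat.add_sub_cancel, rcons_succ, Nat.succ_ne_zero, if_false]
          exact val_a α β k
      · funext k
        rw [val_b]
    simp only [V, this]
  refine ⟨Sys.mk S.n V S.hn hV, fun x e α => ?_⟩
  simp only [key]
  constructor
  · rintro ⟨r, hr⟩
    obtain ⟨β, hβ⟩ := (hS x e (rcons r α)).1 (by simpa using hr)
    exact ⟨rcons r β, by simpa using hβ⟩
  · rintro ⟨β, hβ⟩
    have h1 := (hS x e (rcons (β 0) α)).2 ⟨_, hβ⟩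
    exact ⟨β 0, by simpa using h1⟩

/-- Substitution of indices and renaming of real variables. -/
theorem RE.sub {R : List Γ → (ℕ → ℕ) → (ℕ → ℝ) → Prop} (hR : RE R)
    {E : List Γ → (ℕ → ℕ) → (ℕ → ℕ)} (hE : UE E) {ν : List Γ → (ℕ → ℕ) → ℕ → ℕ}
    (hν : UF (fun x e => ν x (fun i => e (i + 1)) (e 0))) :
    RE (fun x e α => R x (E x e) (fun v => α (ν x e v))) := by
  classical
  obtain ⟨S, hS⟩ := hR
  let V : ℕ → List Γ → (ℕ → ℕ) → ℕ := fun j x e =>
    rt (fun k => 2 * ν x (fun i => e (i + 1)) k + 2) (fun k => 2 * k + 3)
      (S.V j x (cons (e 0) (E x (fun i => e (i + 1)))))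
  have hV : ∀ j, UF (V j) := by
    intro j
    refine uf_rt ?_ ?_ (UF.app (S.hV j) (UE.cons (UF.var 0) (UE.comp UE.tail hE)))
    · have h1 : UF (fun x e => ν x (fun i => e (i + 1 + 1)) (e 0)) := by
        have := UF.app hν (UE.cons (UF.var 0) (E := fun (_ : List Γ) (e : ℕ → ℕ) i => e (i + 2))
          (fun i => UF.var (i + 2)))
        exact this
      exact ((UF.const 2).mul h1).add (UF.const 2)
    · repeat' first
        | assumption
        | exact UF.const _
        | exact UF.var _
        | with_reducible apply UP.lt
        | with_reducible apply UP.le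
        | with_reducible apply UP.eq
        | with_reducible apply UF.add
        | with_reducible apply UF.mul
        | with_reducible apply UF.sub
        | with_reducible apply UF.div
        | with_reducible apply UF.mod
        | with_reducible apply UF.ite
  have key : ∀ x e α β, (Sys.mk (fun x e => S.n x (E x e)) V (UF.app S.hn hE) hV).Sat x e α β ↔
      S.Sat x (E x e) (fun v => α (ν x e v)) β := by
    intro x e α β
    unfold Sys.Sat
    simp only [V, val_rt, val_a, val_b, cons_succ, cons_zero]
  refine ⟨Sys.mk (fun x e => S.n x (E x e)) V (UF.app S.hn hE) hV, fun x e α => ?_⟩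
  simp only [key]
  exact hS _ _ _

/-- Real guards. -/
theorem RE.rguard {R : List Γ → (ℕ → ℕ) → (ℕ → ℝ) → Prop} (hR : RE R)
    {s : List Γ → (ℕ → ℕ) → ℕ} (hs : UF s) :
    RE (fun x e α => α (s x e) = 0 ∨ R x e α) := by
  classical
  obtain ⟨S, hS⟩ := hR
  let em : ℕ → ℕ := rt (fun k => 2 * k + 2) (fun k => 2 * (3 * k) + 3)
  have hem : ∀ {f : List Γ → (ℕ → ℕ) → ℕ}, UF f → UF (fun x e => em (f x e)) := by
    intro f hf
    refine uf_rt ?_ ?_ hf <;> (repeat' first
        | assumption
        | exact UF.const _
        | exact UF.var _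
        | with_reducible apply UP.lt
        | with_reducible apply UP.le
        | with_reducible apply UP.eq
        | with_reducible apply UF.add
        | with_reducible apply UF.mul
        | with_reducible apply UF.sub
        | with_reducible apply UF.div
        | with_reducible apply UF.mod
        | with_reducible apply UF.ite)
  let u : ℕ → List Γ → (ℕ → ℕ) → ℕ := fun j x e =>
    em (S.V j x (cons (e 0 / 3) (fun i => e (i + 1))))
  have hu : ∀ j, UF (u j) := fun j =>
    hem (UF.app (S.hV j) (UE.cons ((UF.var 0).div (UF.const 3)) UE.tail))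
  let s' : List Γ → (ℕ → ℕ) → ℕ := fun x e => 2 * s x (fun i => e (i + 1)) + 2
  have hs' : UF s' := ((UF.const 2).mul (UF.app hs UE.tail)).add (UF.const 2)
  let T : List Γ → (ℕ → ℕ) → ℕ := fun _ e => 2 * (3 * (e 0 / 3) + 1) + 3
  let P : List Γ → (ℕ → ℕ) → ℕ := fun _ e => 2 * (3 * (e 0 / 3) + 2) + 3
  have hT : UF T := by
    show UF (fun (_ : List Γ) (e : ℕ → ℕ) => 2 * (3 * (e 0 / 3) + 1) + 3)
    repeat' first
        | assumption
        | exact UF.const _
        | exact UF.var _
        | with_reducible apply UP.lt
        | with_reducible apply UP.le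
        | with_reducible apply UP.eq
        | with_reducible apply UF.add
        | with_reducible apply UF.mul
        | with_reducible apply UF.sub
        | with_reducible apply UF.div
        | with_reducible apply UF.mod
        | with_reducible apply UF.ite
  have hP : UF P := by
    show UF (fun (_ : List Γ) (e : ℕ → ℕ) => 2 * (3 * (e 0 / 3) + 2) + 3)
    repeat' first
        | assumption
        | exact UF.const _
        | exact UF.var _
        | with_reducible apply UP.lt
        | with_reducible apply UP.le
        | with_reducible apply UP.eq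
        | with_reducible apply UF.add
        | with_reducible apply UF.mul
        | with_reducible apply UF.sub
        | with_reducible apply UF.div
        | with_reducible apply UF.mod
        | with_reducible apply UF.ite
  let V : ℕ → List Γ → (ℕ → ℕ) → ℕ := fun j => match j with
    | 0 => fun x e => if e 0 % 3 = 0 then u 0 x e else s' x e
    | 1 => fun x e => if e 0 % 3 = 0 then u 1 x e else if e 0 % 3 = 1 then T x e else u 3 x e
    | 2 => fun x e => if e 0 % 3 = 0 then u 2 x e else 0
    | _ => fun x e => if e 0 % 3 = 0 then T x e else P x e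
  have h30 : UP (Γ := Γ) (fun _ e => e 0 % 3 = 0) := by repeat' first
      | assumption
      | exact UF.const _
      | exact UF.var _
      | with_reducible apply UP.lt
      | with_reducible apply UP.le
      | with_reducible apply UP.eq
      | with_reducible apply UF.add
      | with_reducible apply UF.mul
      | with_reducible apply UF.sub
      | with_reducible apply UF.div
      | with_reducible apply UF.mod
      | with_reducible apply UF.ite
  have h31 : UP (Γ := Γ) (fun _ e => e 0 % 3 = 1) := by repeat' first
      | assumption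
      | exact UF.const _
      | exact UF.var _
      | with_reducible apply UP.lt
      | with_reducible apply UP.le
      | with_reducible apply UP.eq
      | with_reducible apply UF.add
      | with_reducible apply UF.mul
      | with_reducible apply UF.sub
      | with_reducible apply UF.div
      | with_reducible apply UF.mod
      | with_reducible apply UF.ite
  have hV : ∀ j, UF (V j) := by
    intro j
    match j with
    | 0 => exact UF.ite h30 (hu 0) hs'
    | 1 => exact UF.ite h30 (hu 1) (UF.ite h31 hT (hu 3))
    | 2 => exact UF.ite h30 (hu 2) (UF.const 0)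
    | _ + 3 => exact UF.ite h30 hT hP
  have key : ∀ x e α β, (Sys.mk (fun x e => 3 * S.n x e) V ((UF.const 3).mul S.hn) hV).Sat x e α β ↔
      ∀ c, c < S.n x e →
        (val α (fun k => β (3 * k)) (S.V 0 x (cons c e)) *
          val α (fun k => β (3 * k)) (S.V 1 x (cons c e)) +
          val α (fun k => β (3 * k)) (S.V 2 x (cons c e)) = β (3 * c + 1)) ∧
        α (s x e) * β (3 * c + 1) = β (3 * c + 2) ∧
        α (s x e) * val α (fun k => β (3 * k)) (S.V 3 x (cons c e)) = β (3 * c + 2) := by
    intro x e α β
    unfold Sys.Sat
    have hemv : ∀ v, val α β (em v) = val α (fun k => β (3 * k)) v := by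
      intro v
      simp only [em, val_rt, val_a, val_b]
    constructor
    · intro h c hc
      refine ⟨?_, ?_, ?_⟩
      · have := h (3 * c) (by simp only; omega)
        have h1 : 3 * c % 3 = 0 := by omega
        have h2 : 3 * c / 3 = c := by omega
        simpa [Ct, V, u, T, cons_zero, cons_succ, h1, h2, hemv] using this
      · have := h (3 * c + 1) (by simp only; omega)
        have h1 : (3 * c + 1) % 3 = 1 := by omega
        have h2 : (3 * c + 1) / 3 = c := by omega
        simpa [Ct, V, s', T, P, cons_zero, cons_succ, h1, h2] using this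
      · have := h (3 * c + 2) (by simp only; omega)
        have h1 : (3 * c + 2) % 3 = 2 := by omega
        have h2 : (3 * c + 2) / 3 = c := by omega
        simpa [Ct, V, u, s', T, P, cons_zero, cons_succ, h1, h2, hemv] using this
    · intro h c' hc'
      simp only at hc'
      obtain ⟨g1, g2, g3⟩ := h (c' / 3) (by omega)
      have hmod : c' % 3 = 0 ∨ c' % 3 = 1 ∨ c' % 3 = 2 := by omega
      rcases hmod with h1 | h1 | h1
      · simpa [Ct, V, u, T, cons_zero, cons_succ, h1, hemv] using g1
      · simpa [Ct, V, s', T, P, cons_zero, cons_succ, h1] using g2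
      · simpa [Ct, V, u, s', T, P, cons_zero, cons_succ, h1, hemv] using g3
  refine ⟨Sys.mk (fun x e => 3 * S.n x e) V ((UF.const 3).mul S.hn) hV, fun x e α => ?_⟩
  simp only [key]
  rw [hS]
  constructor
  · intro h
    by_cases h0 : α (s x e) = 0
    · refine ⟨fun k => if k % 3 = 1 then
        val α (fun _ => 0) (S.V 0 x (cons (k / 3) e)) * val α (fun _ => 0) (S.V 1 x (cons (k / 3) e)) +
          val α (fun _ => 0) (S.V 2 x (cons (k / 3) e)) else 0, fun c hc => ?_⟩
      have h1 : (3 * c + 1) % 3 = 1 := by omega
      have h2 : (3 * c + 1) / 3 = c := by omega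
      have h3 : ∀ k, 3 * k % 3 ≠ 1 := by intro k; omega
      have h4 : (3 * c + 2) % 3 ≠ 1 := by omega
      simp [h0, h1, h2]
    · rcases h with h | ⟨β, hβ⟩
      · exact absurd h h0
      · refine ⟨fun k => if k % 3 = 0 then β (k / 3) else if k % 3 = 1 then
          val α β (S.V 3 x (cons (k / 3) e)) else α (s x e) * val α β (S.V 3 x (cons (k / 3) e)),
          fun c hc => ?_⟩
        have h1 : (3 * c + 1) % 3 = 1 := by omega
        have h2 : (3 * c + 1) / 3 = c := by omega
        have h3 : ∀ k, 3 * k % 3 = 0 := by intro k; omega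
        have h4 : (3 * c + 2) % 3 = 2 := by omega
        have h5 : ∀ k, 3 * k / 3 = k := by intro k; omega
        have h6 : (3 * c + 2) / 3 = c := by omega
        have := hβ c hc
        simp only [Ct] at this
        simp [h1, h2, h3, h4, h5, h6, this]
  · rintro ⟨β, hβ⟩
    by_cases h0 : α (s x e) = 0
    · exact Or.inl h0
    · refine Or.inr ⟨fun k => β (3 * k), fun c hc => ?_⟩
      obtain ⟨g1, g2, g3⟩ := hβ c hc
      simp only [Ct]
      rw [g1]
      exact mul_left_cancel₀ h0 (g2.trans g3.symm)

/-- The compilation. -/
theorem RE.inForallR [Fintype Γ] {R : List Γ → (ℕ → ℕ) → (ℕ → ℝ) → Prop} (hR : RE R)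
    (L : Set (List Γ)) (h : ∀ x, x ∈ L ↔ ¬ ∃ α : ℕ → ℝ, R x (fun _ => 0) α) : InForallR L := by
  classical
  obtain ⟨S, hS⟩ := hR
  let sw : ℕ → ℕ := fun v => if v = 0 then 1 else if v = 1 then 0 else v
  let V : ℕ → List Γ → ℕ → ℕ := fun j x c =>
    if c = 0 then 1 else sw (S.V j x (cons (c - 1) (fun _ => 0)))
  have hV : ∀ j, UF (fun x e => V j x (e 0)) := by
    intro j
    have h1 : UF (fun x e => S.V j x (cons (e 0 - 1) (fun _ => 0))) :=
      UF.app (S.hV j) (UE.cons ((UF.var 0).sub (UF.const 1)) (fun _ => UF.const 0))
    show UF (fun x e => if e 0 = 0 then 1 else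
      if S.V j x (cons (e 0 - 1) (fun _ => 0)) = 0 then 1 else
        if S.V j x (cons (e 0 - 1) (fun _ => 0)) = 1 then 0 else
          S.V j x (cons (e 0 - 1) (fun _ => 0)))
    repeat' first
        | assumption
        | exact UF.const _
        | exact UF.var _
        | with_reducible apply UP.lt
        | with_reducible apply UP.le
        | with_reducible apply UP.eq
        | with_reducible apply UF.add
        | with_reducible apply UF.mul
        | with_reducible apply UF.sub
        | with_reducible apply UF.div
        | with_reducible apply UF.mod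
        | with_reducible apply UF.ite
  refine flat_reduction L (fun x => S.n x (fun _ => 0) + 1) (V 0) (V 1) (V 2) (V 3) ?_ (hV 0) (hV 1)
    (hV 2) (hV 3) fun x => ?_
  · exact (UF.app S.hn (fun _ => UF.const 0)).add (UF.const 1)
  · rw [h x]
    refine not_congr ?_
    constructor
    · rintro ⟨α, hα⟩
      rw [hS] at hα
      obtain ⟨β, hβ⟩ := hα
      refine ⟨fun v => val α β (sw v), by simp [sw], fun c hc => ?_⟩
      by_cases h0 : c = 0
      · simp [V, h0, sw]
      · have := hβ (c - 1) (by omega)
        simp only [Ct] at this
        have hsw : ∀ v, sw (sw v) = v := by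
          intro v
          simp only [sw]
          split_ifs <;> simp_all
        simp only [V, h0, if_false, hsw]
        exact this
    · rintro ⟨γ, h1, h2⟩
      refine ⟨fun k => γ (2 * k + 2), ?_⟩
      rw [hS]
      refine ⟨fun k => γ (2 * k + 3), fun c hc => ?_⟩
      have hz : γ 1 = 0 := by
        have := h2 0 (by omega)
        simp only [V, if_true] at this
        nlinarith
      have hv : ∀ v, val (fun k => γ (2 * k + 2)) (fun k => γ (2 * k + 3)) v = γ (sw v) := by
        intro v
        unfold val
        simp only [sw]
        split_ifs with g0 g1 g2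
        · exact hz.symm
        · exact h1.symm
        · congr 1; omega
        · congr 1; omega
      have := h2 (c + 1) (by omega)
      simp only [V, Nat.succ_ne_zero, if_false, Nat.add_sub_cancel] at this
      simp only [Ct, hv]
      exact this

end Pool.Agent.AllR
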