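import Mathlib
import Pool.Agent.PT.UF
import Pool.Agent.AllR.Sys

/-!
# A shallow language for existential real conditions: real functions with representable graphs
-/

set_option autoImplicit false

namespace Pool.Agent.AllR

open Pool.Agent.PT

variable {Γ : Type}

/-! ### Elementary relations -/

theorem RE.true : RE (Γ := Γ) (fun _ _ _ => True) := RE.up UP.true

theorem RE.ren {R : List Γ → (ℕ → ℕ) → (ℕ → ℝ) → Prop} (hR : RE R) {ν : List Γ → (ℕ → ℕ) → ℕ → ℕ}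
    (hν : UF (fun x e => ν x (fun i => e (i + 1)) (e 0))) :
    RE (fun x e α => R x e (fun v => α (ν x e v))) := RE.sub hR UE.id hν

/-- Renaming by a fixed affine map. -/
theorem RE.aff {R : List Γ → (ℕ → ℕ) → (ℕ → ℝ) → Prop} (hR : RE R) (a b : ℕ) :
    RE (fun x e α => R x e (fun v => α (a * v + b))) :=
  RE.ren hR (ν := fun _ _ v => a * v + b) (((UF.const a).mul (UF.var 0)).add (UF.const b))

theorem RE.shift {R : List Γ → (ℕ → ℕ) → (ℕ → ℝ) → Prop} (hR : RE R) (b : ℕ) :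
    RE (fun x e α => R x e (fun v => α (v + b))) :=
  RE.ren hR (ν := fun _ _ v => v + b) ((UF.var 0).add (UF.const b))

theorem RE.mul_eq {a b c : List Γ → (ℕ → ℕ) → ℕ} (ha : UF a) (hb : UF b) (hc : UF c) :
    RE (fun x e α => α (a x e) * α (b x e) = α (c x e)) := by
  refine (RE.atom (ha.add (UF.const 2)) (hb.add (UF.const 2)) (UF.const 0)
    (hc.add (UF.const 2))).congr fun x e α => ?_
  simp [vl]

theorem RE.add_eq {a b c : List Γ → (ℕ → ℕ) → ℕ} (ha : UF a) (hb : UF b) (hc : UF c) :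
    RE (fun x e α => α (a x e) + α (b x e) = α (c x e)) := by
  refine (RE.atom (UF.const 1) (ha.add (UF.const 2)) (hb.add (UF.const 2))
    (hc.add (UF.const 2))).congr fun x e α => ?_
  simp [vl]

theorem RE.eqv {a b : List Γ → (ℕ → ℕ) → ℕ} (ha : UF a) (hb : UF b) :
    RE (fun x e α => α (a x e) = α (b x e)) := by
  refine (RE.atom (UF.const 0) (UF.const 0) (ha.add (UF.const 2))
    (hb.add (UF.const 2))).congr fun x e α => ?_
  simp [vl]

theorem RE.eq_zero {a : List Γ → (ℕ → ℕ) → ℕ} (ha : UF a) :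
    RE (fun x e α => α (a x e) = 0) := by
  refine (RE.atom (UF.const 0) (UF.const 0) (ha.add (UF.const 2))
    (UF.const 0)).congr fun x e α => ?_
  simp [vl]

theorem RE.eq_one {a : List Γ → (ℕ → ℕ) → ℕ} (ha : UF a) :
    RE (fun x e α => α (a x e) = 1) := by
  refine (RE.atom (UF.const 0) (UF.const 0) (ha.add (UF.const 2))
    (UF.const 1)).congr fun x e α => ?_
  simp [vl]

theorem RE.or {R R' : List Γ → (ℕ → ℕ) → (ℕ → ℝ) → Prop} (hR : RE R) (hR' : RE R') :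
    RE (fun x e α => R x e α ∨ R' x e α) := by
  have h1 : RE (Γ := Γ) (fun x e α => ((∃ p : ℝ, p = 0 ∧ α 1 * α 0 = p) ∧
      (∃ q : ℝ, q = 1 ∧ α 1 + α 0 = q)) ∧
      ((α 1 = 0 ∨ R x e (fun v => α (v + 2))) ∧ (α 0 = 0 ∨ R' x e (fun v => α (v + 2))))) := by
    refine ((RE.exr ?_).and (RE.exr ?_)).and
      (((RE.shift hR 2).rguard (UF.const 1)).and ((RE.shift hR' 2).rguard (UF.const 0)))
    · exact (RE.eq_zero (UF.const 0)).and (RE.mul_eq (UF.const 2) (UF.const 1) (UF.const 0))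
    · exact (RE.eq_one (UF.const 0)).and (RE.add_eq (UF.const 2) (UF.const 1) (UF.const 0))
  have h2 : RE (Γ := Γ) (fun x e α => ∃ s : ℝ, ∃ t : ℝ, ((∃ p : ℝ, p = 0 ∧ s * t = p) ∧
      (∃ q : ℝ, q = 1 ∧ s + t = q)) ∧ ((s = 0 ∨ R x e α) ∧ (t = 0 ∨ R' x e α))) :=
    RE.exr (RE.exr h1)
  refine h2.congr fun x e α => ?_
  constructor
  · rintro ⟨s, t, ⟨⟨p, rfl, h3⟩, q, rfl, h4⟩, h5, h6⟩
    rcases mul_eq_zero.1 h3 with h | h
    · right
      refine h6.resolve_left ?_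
      intro ht
      rw [h, ht] at h4
      norm_num at h4
    · left
      refine h5.resolve_left ?_
      intro hs
      rw [h, hs] at h4
      norm_num at h4
  · rintro (h | h)
    · exact ⟨1, 0, ⟨⟨0, rfl, by norm_num⟩, 1, rfl, by norm_num⟩, Or.inr h, Or.inl rfl⟩
    · exact ⟨0, 1, ⟨⟨0, rfl, by norm_num⟩, 1, rfl, by norm_num⟩, Or.inl rfl, Or.inr h⟩

theorem RE.ite {P : List Γ → (ℕ → ℕ) → Prop} {R R' : List Γ → (ℕ → ℕ) → (ℕ → ℝ) → Prop}
    (hP : UP P) (hR : RE R) (hR' : RE R') :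
    RE (fun x e α => (P x e → R x e α) ∧ (¬ P x e → R' x e α)) :=
  (RE.guard hP hR).and (RE.guard hP.not hR')

/-! ### Real functions -/

/-- Real valued functions whose graph is representable. -/
def RF (f : List Γ → (ℕ → ℕ) → (ℕ → ℝ) → ℝ) : Prop :=
  RE (fun x e α => f x e (fun v => α (v + 1)) = α 0)

theorem RF.congr {f g : List Γ → (ℕ → ℕ) → (ℕ → ℝ) → ℝ} (hf : RF f)
    (h : ∀ x e α, f x e α = g x e α) : RF g := by
  refine RE.congr hf fun x e α => ?_
  rw [h]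

/-- Substituting the value of a function. -/
theorem RE.bind {f : List Γ → (ℕ → ℕ) → (ℕ → ℝ) → ℝ} (hf : RF f)
    {R : List Γ → (ℕ → ℕ) → (ℕ → ℝ) → ℝ → Prop}
    (hR : RE (fun x e α => R x e (fun v => α (v + 1)) (α 0))) :
    RE (fun x e α => R x e α (f x e α)) := by
  have h1 : RE (fun x e α => ∃ r : ℝ, f x e α = r ∧ R x e α r) := RE.exr (RE.and hf hR)
  refine h1.congr fun x e α => ?_
  constructor
  · rintro ⟨r, rfl, h⟩; exact h
  · intro h; exact ⟨_, rfl, h⟩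

/-- Substitution of indices and renaming of real variables. -/
theorem RF.sub' {f : List Γ → (ℕ → ℕ) → (ℕ → ℝ) → ℝ} (hf : RF f)
    {E : List Γ → (ℕ → ℕ) → (ℕ → ℕ)} (hE : UE E) {ν : List Γ → (ℕ → ℕ) → ℕ → ℕ}
    (hν : UF (fun x e => ν x (fun i => e (i + 1)) (e 0))) :
    RF (fun x e α => f x (E x e) (fun v => α (ν x e v))) := by
  have h1 := RE.sub hf hE (ν := fun x e v => if v = 0 then 0 else ν x e (v - 1) + 1) (by
    have h2 : UF (fun x e => ν x (fun i => e (i + 1)) (e 0 - 1)) := by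
      have := UF.app hν (UE.cons ((UF.var 0).sub (UF.const 1)) UE.tail)
      exact this
    exact UF.ite (UP.eq (UF.var 0) (UF.const 0)) (UF.const 0) (h2.add (UF.const 1)))
  refine RE.congr h1 fun x e α => ?_
  simp

theorem RF.ren {f : List Γ → (ℕ → ℕ) → (ℕ → ℝ) → ℝ} (hf : RF f) {ν : List Γ → (ℕ → ℕ) → ℕ → ℕ}
    (hν : UF (fun x e => ν x (fun i => e (i + 1)) (e 0))) :
    RF (fun x e α => f x e (fun v => α (ν x e v))) := RF.sub' hf UE.id hν

theorem RF.aff {f : List Γ → (ℕ → ℕ) → (ℕ → ℝ) → ℝ} (hf : RF f) (a b : ℕ) :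
    RF (fun x e α => f x e (fun v => α (a * v + b))) :=
  RF.ren hf (ν := fun _ _ v => a * v + b) (((UF.const a).mul (UF.var 0)).add (UF.const b))

theorem RF.shift {f : List Γ → (ℕ → ℕ) → (ℕ → ℝ) → ℝ} (hf : RF f) (b : ℕ) :
    RF (fun x e α => f x e (fun v => α (v + b))) :=
  RF.ren hf (ν := fun _ _ v => v + b) ((UF.var 0).add (UF.const b))

theorem RF.idx {f : List Γ → (ℕ → ℕ) → (ℕ → ℝ) → ℝ} (hf : RF f)
    {E : List Γ → (ℕ → ℕ) → (ℕ → ℕ)} (hE : UE E) : RF (fun x e α => f x (E x e) α) :=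
  RF.sub' hf hE (ν := fun _ _ v => v) (UF.var 0)

theorem RE.idx {R : List Γ → (ℕ → ℕ) → (ℕ → ℝ) → Prop} (hR : RE R)
    {E : List Γ → (ℕ → ℕ) → (ℕ → ℕ)} (hE : UE E) : RE (fun x e α => R x (E x e) α) :=
  RE.sub hR hE (ν := fun _ _ v => v) (UF.var 0)

/-- A real variable. -/
theorem RF.var {g : List Γ → (ℕ → ℕ) → ℕ} (hg : UF g) : RF (fun x e α => α (g x e)) :=
  RE.eqv (hg.add (UF.const 1)) (UF.const 0)

theorem RF.zero : RF (Γ := Γ) (fun _ _ _ => 0) :=
  (RE.eq_zero (UF.const 0)).congr fun _ _ _ => eq_comm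

theorem RF.one : RF (Γ := Γ) (fun _ _ _ => 1) :=
  (RE.eq_one (UF.const 0)).congr fun _ _ _ => eq_comm

/-- Binary relations. -/
theorem RE.rel₂ {r : ℝ → ℝ → Prop} (hr : RE (Γ := Γ) (fun _ _ α => r (α 0) (α 1)))
    {f g : List Γ → (ℕ → ℕ) → (ℕ → ℝ) → ℝ} (hf : RF f) (hg : RF g) :
    RE (fun x e α => r (f x e α) (g x e α)) := by
  refine RE.bind (R := fun x e α s => r s (g x e α)) hf ?_
  refine RE.bind (f := fun x e α => g x e (fun v => α (v + 1)))
    (R := fun _ _ α t => r (α 0) t) (RF.shift hg 1) ?_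
  exact RE.ren hr (ν := fun _ _ v => 1 - v) ((UF.const 1).sub (UF.var 0))

/-- Unary relations. -/
theorem RE.rel₁ {r : ℝ → Prop} (hr : RE (Γ := Γ) (fun _ _ α => r (α 0)))
    {f : List Γ → (ℕ → ℕ) → (ℕ → ℝ) → ℝ} (hf : RF f) :
    RE (fun x e α => r (f x e α)) := RE.bind (R := fun _ _ _ s => r s) hf hr

/-- Ternary relations. -/
theorem RE.rel₃ {r : ℝ → ℝ → ℝ → Prop} (hr : RE (Γ := Γ) (fun _ _ α => r (α 0) (α 1) (α 2)))
    {f g h : List Γ → (ℕ → ℕ) → (ℕ → ℝ) → ℝ} (hf : RF f) (hg : RF g) (hh : RF h) :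
    RE (fun x e α => r (f x e α) (g x e α) (h x e α)) := by
  refine RE.bind (R := fun x e α s => r s (g x e α) (h x e α)) hf ?_
  refine RE.bind (f := fun x e α => g x e (fun v => α (v + 1)))
    (R := fun x e α t => r (α 0) t (h x e (fun v => α (v + 1)))) (RF.shift hg 1) ?_
  refine RE.bind (f := fun x e α => h x e (fun v => α (v + 1 + 1)))
    (R := fun _ _ α t => r (α 1) (α 0) t) (RF.shift hh 2) ?_
  exact RE.ren hr (ν := fun _ _ v => 2 - v) ((UF.const 2).sub (UF.var 0))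

/-- Binary operations. -/
theorem RF.op₂ {o : ℝ → ℝ → ℝ} (ho : RE (Γ := Γ) (fun _ _ α => o (α 0) (α 1) = α 2))
    {f g : List Γ → (ℕ → ℕ) → (ℕ → ℝ) → ℝ} (hf : RF f) (hg : RF g) :
    RF (fun x e α => o (f x e α) (g x e α)) :=
  RE.rel₃ (r := fun a b c => o a b = c) ho (RF.shift hf 1) (RF.shift hg 1)
    (RF.var (UF.const 0))

/-- Unary operations. -/
theorem RF.op₁ {o : ℝ → ℝ} (ho : RE (Γ := Γ) (fun _ _ α => o (α 0) = α 1))
    {f : List Γ → (ℕ → ℕ) → (ℕ → ℝ) → ℝ} (hf : RF f) :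
    RF (fun x e α => o (f x e α)) :=
  RE.rel₂ (r := fun a c => o a = c) ho (RF.shift hf 1) (RF.var (UF.const 0))

theorem RF.add {f g : List Γ → (ℕ → ℕ) → (ℕ → ℝ) → ℝ} (hf : RF f) (hg : RF g) :
    RF (fun x e α => f x e α + g x e α) :=
  RF.op₂ (RE.add_eq (UF.const 0) (UF.const 1) (UF.const 2)) hf hg

theorem RF.mul {f g : List Γ → (ℕ → ℕ) → (ℕ → ℝ) → ℝ} (hf : RF f) (hg : RF g) :
    RF (fun x e α => f x e α * g x e α) :=
  RF.op₂ (RE.mul_eq (UF.const 0) (UF.const 1) (UF.const 2)) hf hg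

theorem RF.sub {f g : List Γ → (ℕ → ℕ) → (ℕ → ℝ) → ℝ} (hf : RF f) (hg : RF g) :
    RF (fun x e α => f x e α - g x e α) :=
  RF.op₂ ((RE.add_eq (UF.const 1) (UF.const 2) (UF.const 0)).congr fun x e α => by
    constructor
    · intro h; linarith
    · intro h; linarith) hf hg

theorem RF.neg {f : List Γ → (ℕ → ℕ) → (ℕ → ℝ) → ℝ} (hf : RF f) :
    RF (fun x e α => - f x e α) := (RF.zero.sub hf).congr fun x e α => by ring

theorem RE.eq {f g : List Γ → (ℕ → ℕ) → (ℕ → ℝ) → ℝ} (hf : RF f) (hg : RF g) :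
    RE (fun x e α => f x e α = g x e α) :=
  RE.rel₂ (RE.eqv (UF.const 0) (UF.const 1)) hf hg

theorem RE.le {f g : List Γ → (ℕ → ℕ) → (ℕ → ℝ) → ℝ} (hf : RF f) (hg : RF g) :
    RE (fun x e α => f x e α ≤ g x e α) := by
  refine RE.rel₂ (r := fun a b => a ≤ b) ?_ hf hg
  have h1 : RE (Γ := Γ) (fun _ _ α => ∃ r : ℝ, α 0 + r * r = α 1) := by
    refine RE.exr ?_
    exact RE.eq ((RF.var (UF.const 1)).add ((RF.var (UF.const 0)).mul (RF.var (UF.const 0))))
      (RF.var (UF.const 2))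
  refine h1.congr fun _ _ α => ?_
  constructor
  · rintro ⟨r, hr⟩
    nlinarith [mul_self_nonneg r]
  · intro h
    refine ⟨Real.sqrt (α 1 - α 0), ?_⟩
    rw [Real.mul_self_sqrt (by linarith)]
    ring

theorem RE.ne {f g : List Γ → (ℕ → ℕ) → (ℕ → ℝ) → ℝ} (hf : RF f) (hg : RF g) :
    RE (fun x e α => f x e α ≠ g x e α) := by
  refine RE.rel₂ (r := fun a b => a ≠ b) ?_ hf hg
  have h1 : RE (Γ := Γ) (fun _ _ α => ∃ r : ℝ, (α 0 - α 1) * r = 1) := by
    refine RE.exr ?_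
    exact RE.eq (((RF.var (UF.const 1)).sub (RF.var (UF.const 2))).mul (RF.var (UF.const 0)))
      RF.one
  refine h1.congr fun _ _ α => ?_
  constructor
  · rintro ⟨r, hr⟩ h
    rw [h] at hr
    simp at hr
  · intro h
    exact ⟨(α 0 - α 1)⁻¹, mul_inv_cancel₀ (sub_ne_zero.2 h)⟩

theorem RE.lt {f g : List Γ → (ℕ → ℕ) → (ℕ → ℝ) → ℝ} (hf : RF f) (hg : RF g) :
    RE (fun x e α => f x e α < g x e α) :=
  ((RE.le hf hg).and (RE.ne hf hg)).congr fun _ _ _ => lt_iff_le_and_ne.symm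

theorem RF.inv {f : List Γ → (ℕ → ℕ) → (ℕ → ℝ) → ℝ} (hf : RF f) :
    RF (fun x e α => (f x e α)⁻¹) := by
  refine RF.op₁ (o := fun a => a⁻¹) ?_ hf
  have h1 : RE (Γ := Γ) (fun _ _ α => α 0 * α 1 = 1 ∨ (α 0 = 0 ∧ α 1 = 0)) :=
    (RE.eq ((RF.var (UF.const 0)).mul (RF.var (UF.const 1))) RF.one).or
      ((RE.eq_zero (UF.const 0)).and (RE.eq_zero (UF.const 1)))
  refine h1.congr fun _ _ α => ?_
  constructor
  · rintro (h | ⟨h, h'⟩)
    · exact inv_eq_of_mul_eq_one_right h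
    · rw [h, h']; simp
  · intro h
    by_cases h0 : α 0 = 0
    · right
      refine ⟨h0, ?_⟩
      rw [← h, h0]; simp
    · left
      rw [← h]
      exact mul_inv_cancel₀ h0

theorem RF.div {f g : List Γ → (ℕ → ℕ) → (ℕ → ℝ) → ℝ} (hf : RF f) (hg : RF g) :
    RF (fun x e α => f x e α / g x e α) := (hf.mul hg.inv).congr fun x e α => by
  rw [div_eq_mul_inv]

theorem RF.abs {f : List Γ → (ℕ → ℕ) → (ℕ → ℝ) → ℝ} (hf : RF f) :
    RF (fun x e α => |f x e α|) := by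
  refine RF.op₁ (o := fun a => |a|) ?_ hf
  have h1 : RE (Γ := Γ) (fun _ _ α => 0 ≤ α 1 ∧ α 0 * α 0 = α 1 * α 1) :=
    (RE.le RF.zero (RF.var (UF.const 1))).and
      (RE.eq ((RF.var (UF.const 0)).mul (RF.var (UF.const 0)))
        ((RF.var (UF.const 1)).mul (RF.var (UF.const 1))))
  refine h1.congr fun _ _ α => ?_
  constructor
  · rintro ⟨h, h'⟩
    rw [← abs_of_nonneg h]
    exact (sq_eq_sq_iff_abs_eq_abs _ _).1 (by nlinarith)
  · intro h
    rw [← h]
    exact ⟨abs_nonneg _, (abs_mul_abs_self _).symm⟩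

theorem RF.sqrt {f : List Γ → (ℕ → ℕ) → (ℕ → ℝ) → ℝ} (hf : RF f) :
    RF (fun x e α => Real.sqrt (f x e α)) := by
  refine RF.op₁ (o := fun a => Real.sqrt a) ?_ hf
  have h1 : RE (Γ := Γ) (fun _ _ α => (0 ≤ α 1 ∧ α 1 * α 1 = α 0) ∨ (α 0 < 0 ∧ α 1 = 0)) :=
    ((RE.le RF.zero (RF.var (UF.const 1))).and
      (RE.mul_eq (UF.const 1) (UF.const 1) (UF.const 0))).or
        ((RE.lt (RF.var (UF.const 0)) RF.zero).and (RE.eq_zero (UF.const 1)))
  refine h1.congr fun _ _ α => ?_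
  constructor
  · rintro (⟨h, h'⟩ | ⟨h, h'⟩)
    · rw [← h']
      exact Real.sqrt_mul_self h
    · rw [h', Real.sqrt_eq_zero_of_nonpos h.le]
  · intro h
    by_cases h0 : 0 ≤ α 0
    · left
      rw [← h]
      exact ⟨Real.sqrt_nonneg _, Real.mul_self_sqrt h0⟩
    · right
      push Not at h0
      refine ⟨h0, ?_⟩
      rw [← h, Real.sqrt_eq_zero_of_nonpos h0.le]

/-! ### Recursion -/

/-- Bounded recursion. -/
theorem RF.natRec {b : List Γ → (ℕ → ℕ) → ℕ} {f : List Γ → (ℕ → ℕ) → (ℕ → ℝ) → ℝ}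
    {s : List Γ → (ℕ → ℕ) → (ℕ → ℝ) → ℕ → ℝ → ℝ} (hb : UF b) (hf : RF f)
    (hs : RF (fun x e α => s x (fun i => e (i + 1)) (fun v => α (v + 1)) (e 0) (α 0))) :
    RF (fun x e α => Nat.rec (motive := fun _ => ℝ) (f x e α) (fun i r => s x e α i r) (b x e)) := by
  have h1 : RE (fun x e α => ∃ γ : ℕ → ℝ, γ 0 = f x e (fun v => α (v + 1)) ∧
      (∀ i, i < b x e → s x e (fun v => α (v + 1)) i (γ i) = γ (i + 1)) ∧ γ (b x e) = α 0) := by
    refine RE.exb ?_
    refine RE.and ?_ (RE.and ?_ ?_)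
    · exact RE.eq (RF.var (UF.const 1)) (RF.aff hf 2 2)
    · refine RE.ball (R := fun x e α i => s x e (fun v => α (2 * (v + 1))) i (α (2 * i + 1)) =
        α (2 * (i + 1) + 1)) hb ?_
      refine RE.eq (RF.congr (RF.ren hs (ν := fun _ e v => if v = 0 then 2 * e 0 + 1 else 2 * v) ?_)
        fun x e α => ?_) (RF.var ?_)
      · exact UF.ite (UP.eq (UF.var 0) (UF.const 0))
          (((UF.const 2).mul (UF.var 1)).add (UF.const 1)) ((UF.const 2).mul (UF.var 0))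
      · simp
      · exact ((UF.const 2).mul ((UF.var 0).add (UF.const 1))).add (UF.const 1)
    · exact RE.eq (RF.var (((UF.const 2).mul hb).add (UF.const 1))) (RF.var (UF.const 0))
  refine RE.congr h1 fun x e α => ?_
  constructor
  · rintro ⟨γ, h0, hstep, hlast⟩
    have key : ∀ n, n ≤ b x e → Nat.rec (motive := fun _ => ℝ) (f x e (fun v => α (v + 1)))
        (fun i r => s x e (fun v => α (v + 1)) i r) n = γ n := by
      intro n
      induction n with
      | zero => intro _; exact h0.symm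
      | succ n ih =>
        intro hn
        rw [← hstep n (by omega), ← ih (by omega)]
    exact (key _ le_rfl).trans hlast
  · intro h
    refine ⟨fun n => Nat.rec (motive := fun _ => ℝ) (f x e (fun v => α (v + 1)))
      (fun i r => s x e (fun v => α (v + 1)) i r) n, rfl, fun i _ => rfl, h⟩

/-- Bounded sums. -/
theorem RF.sum {b : List Γ → (ℕ → ℕ) → ℕ} {f : List Γ → (ℕ → ℕ) → (ℕ → ℝ) → ℕ → ℝ} (hb : UF b)
    (hf : RF (fun x e α => f x (fun i => e (i + 1)) α (e 0))) :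
    RF (fun x e α => ∑ i ∈ Finset.range (b x e), f x e α i) := by
  refine (RF.natRec (s := fun x e α i r => r + f x e α i) hb RF.zero
    ((RF.var (UF.const 0)).add (RF.shift hf 1))).congr fun x e α => ?_
  generalize b x e = n
  induction n with
  | zero => simp
  | succ n ih => rw [Finset.sum_range_succ, ← ih]

/-- Bounded products. -/
theorem RF.prod {b : List Γ → (ℕ → ℕ) → ℕ} {f : List Γ → (ℕ → ℕ) → (ℕ → ℝ) → ℕ → ℝ} (hb : UF b)
    (hf : RF (fun x e α => f x (fun i => e (i + 1)) α (e 0))) :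
    RF (fun x e α => ∏ i ∈ Finset.range (b x e), f x e α i) := by
  refine (RF.natRec (s := fun x e α i r => r * f x e α i) hb RF.one
    ((RF.var (UF.const 0)).mul (RF.shift hf 1))).congr fun x e α => ?_
  generalize b x e = n
  induction n with
  | zero => simp
  | succ n ih => rw [Finset.prod_range_succ, ← ih]

/-- Natural numbers. -/
theorem RF.nat {t : List Γ → (ℕ → ℕ) → ℕ} (ht : UF t) : RF (fun x e _ => (t x e : ℝ)) :=
  (RF.sum (f := fun _ _ _ _ => 1) ht RF.one).congr fun x e α => by simp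

theorem RF.rat (q : ℚ) : RF (Γ := Γ) (fun _ _ _ => (q : ℝ)) := by
  have h1 : RF (Γ := Γ) (fun _ _ _ => ((q.num : ℤ) : ℝ)) := by
    rcases Int.natAbs_eq q.num with h | h
    · rw [h]; exact (RF.nat (UF.const q.num.natAbs)).congr fun _ _ _ => by simp
    · rw [h]; exact (RF.nat (UF.const q.num.natAbs)).neg.congr fun _ _ _ => by simp
  refine (h1.div (RF.nat (UF.const q.den))).congr fun _ _ _ => ?_
  rw [Rat.cast_def]

/-- Powers with a unary exponent. -/
theorem RF.pow {f : List Γ → (ℕ → ℕ) → (ℕ → ℝ) → ℝ} {g : List Γ → (ℕ → ℕ) → ℕ} (hf : RF f)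
    (hg : UF g) : RF (fun x e α => f x e α ^ g x e) := by
  refine (RF.prod (f := fun x e α _ => f x e α) hg (RF.idx hf UE.tail)).congr fun x e α => ?_
  simp

/-- Iterated squaring. -/
theorem RF.pow_two_pow {f : List Γ → (ℕ → ℕ) → (ℕ → ℝ) → ℝ} {g : List Γ → (ℕ → ℕ) → ℕ} (hf : RF f)
    (hg : UF g) : RF (fun x e α => f x e α ^ (2 ^ g x e)) := by
  refine (RF.natRec (s := fun x e α i r => r * r) hg hf
    ((RF.var (UF.const 0)).mul (RF.var (UF.const 0)))).congr fun x e α => ?_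
  generalize g x e = n
  induction n with
  | zero => simp
  | succ n ih =>
    rw [pow_succ 2 n, pow_mul, pow_two, ← ih]

theorem RF.ite {P : List Γ → (ℕ → ℕ) → Prop} {f g : List Γ → (ℕ → ℕ) → (ℕ → ℝ) → ℝ}
    {inst : ∀ x e, Decidable (P x e)} (hP : UP P) (hf : RF f) (hg : RF g) :
    RF (fun x e α => @ite ℝ (P x e) (inst x e) (f x e α) (g x e α)) := by
  refine RE.congr (RE.ite hP hf hg) fun x e α => ?_
  by_cases h : P x e <;> simp [h]

/-- Case distinction on a real condition. -/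
theorem RF.rite {R : List Γ → (ℕ → ℕ) → (ℕ → ℝ) → Prop} {f g : List Γ → (ℕ → ℕ) → (ℕ → ℝ) → ℝ}
    {inst : ∀ x e α, Decidable (R x e α)} (hR : RE R) (hR' : RE (fun x e α => ¬ R x e α))
    (hf : RF f) (hg : RF g) :
    RF (fun (x : List Γ) (e : ℕ → ℕ) (α : ℕ → ℝ) =>
      @_root_.ite ℝ (R x e α) (inst x e α) (f x e α) (g x e α)) := by
  refine RE.congr (((RE.shift hR 1).and hf).or ((RE.shift hR' 1).and hg)) fun x e α => ?_
  by_cases h : R x e (fun v => α (v + 1)) <;> simp [h]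

/-- Bounded existential quantification over indices. -/
theorem RE.bex {b : List Γ → (ℕ → ℕ) → ℕ} {R : List Γ → (ℕ → ℕ) → (ℕ → ℝ) → ℕ → Prop}
    (hb : UF b) (hR : RE (fun x e α => R x (fun i => e (i + 1)) α (e 0))) :
    RE (fun x e α => ∃ i, i < b x e ∧ R x e α i) := by
  have h1 : RE (fun x e α => ∃ γ : ℕ → ℝ, (∀ i, i < b x e → (γ i = 0 ∨ R x e α i)) ∧
      ∑ i ∈ Finset.range (b x e), γ i = 1) := by
    refine RE.exb ?_
    refine RE.and ?_ ?_
    · refine RE.ball (R := fun x e α i => α (2 * i + 1) = 0 ∨ R x e (fun v => α (2 * v)) i) hb ?_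
      refine RE.or (RE.eq_zero (((UF.const 2).mul (UF.var 0)).add (UF.const 1))) ?_
      exact RE.aff hR 2 0
    · refine RE.eq (RF.sum (f := fun _ _ α i => α (2 * i + 1)) hb ?_) RF.one
      exact RF.var (((UF.const 2).mul (UF.var 0)).add (UF.const 1))
  refine h1.congr fun x e α => ?_
  constructor
  · rintro ⟨γ, h2, h3⟩
    by_contra hcon
    push Not at hcon
    have : ∀ i ∈ Finset.range (b x e), γ i = 0 := by
      intro i hi
      rw [Finset.mem_range] at hi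
      exact (h2 i hi).resolve_right (hcon i hi)
    rw [Finset.sum_eq_zero this] at h3
    norm_num at h3
  · rintro ⟨i, hi, h⟩
    refine ⟨fun j => if j = i then 1 else 0, fun j _ => ?_, ?_⟩
    · by_cases hj : j = i
      · subst hj; exact Or.inr h
      · exact Or.inl (by simp [hj])
    · rw [Finset.sum_ite_eq']
      simp [hi]

end Pool.Agent.AllR
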