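import Mathlib
import Pool.Agent.PT.UF
import Pool.Agent.AllR.RF

/-!
# A shallow language for existential real conditions: complex functions
-/

set_option autoImplicit false

namespace Pool.Agent.AllR

open Pool.Agent.PT

variable {Γ : Type}

/-- Complex valued functions whose real and imaginary parts have representable graphs. -/
def CF (f : List Γ → (ℕ → ℕ) → (ℕ → ℝ) → ℂ) : Prop :=
  RF (fun x e α => (f x e α).re) ∧ RF (fun x e α => (f x e α).im)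

theorem CF.congr {f g : List Γ → (ℕ → ℕ) → (ℕ → ℝ) → ℂ} (hf : CF f)
    (h : ∀ x e α, f x e α = g x e α) : CF g :=
  ⟨hf.1.congr fun x e α => by rw [h], hf.2.congr fun x e α => by rw [h]⟩

theorem CF.re {f : List Γ → (ℕ → ℕ) → (ℕ → ℝ) → ℂ} (hf : CF f) :
    RF (fun x e α => (f x e α).re) := hf.1

theorem CF.im {f : List Γ → (ℕ → ℕ) → (ℕ → ℝ) → ℂ} (hf : CF f) :
    RF (fun x e α => (f x e α).im) := hf.2

theorem CF.sub' {f : List Γ → (ℕ → ℕ) → (ℕ → ℝ) → ℂ} (hf : CF f)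
    {E : List Γ → (ℕ → ℕ) → (ℕ → ℕ)} (hE : UE E) {ν : List Γ → (ℕ → ℕ) → ℕ → ℕ}
    (hν : UF (fun x e => ν x (fun i => e (i + 1)) (e 0))) :
    CF (fun x e α => f x (E x e) (fun v => α (ν x e v))) :=
  ⟨RF.sub' hf.1 hE hν, RF.sub' hf.2 hE hν⟩

theorem CF.ren {f : List Γ → (ℕ → ℕ) → (ℕ → ℝ) → ℂ} (hf : CF f) {ν : List Γ → (ℕ → ℕ) → ℕ → ℕ}
    (hν : UF (fun x e => ν x (fun i => e (i + 1)) (e 0))) :
    CF (fun x e α => f x e (fun v => α (ν x e v))) := CF.sub' hf UE.id hν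

theorem CF.aff {f : List Γ → (ℕ → ℕ) → (ℕ → ℝ) → ℂ} (hf : CF f) (a b : ℕ) :
    CF (fun x e α => f x e (fun v => α (a * v + b))) := ⟨RF.aff hf.1 a b, RF.aff hf.2 a b⟩

theorem CF.shift {f : List Γ → (ℕ → ℕ) → (ℕ → ℝ) → ℂ} (hf : CF f) (b : ℕ) :
    CF (fun x e α => f x e (fun v => α (v + b))) := ⟨RF.shift hf.1 b, RF.shift hf.2 b⟩

theorem CF.idx {f : List Γ → (ℕ → ℕ) → (ℕ → ℝ) → ℂ} (hf : CF f)
    {E : List Γ → (ℕ → ℕ) → (ℕ → ℕ)} (hE : UE E) : CF (fun x e α => f x (E x e) α) :=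
  ⟨RF.idx hf.1 hE, RF.idx hf.2 hE⟩

theorem CF.mk {f g : List Γ → (ℕ → ℕ) → (ℕ → ℝ) → ℝ} (hf : RF f) (hg : RF g) :
    CF (fun x e α => (⟨f x e α, g x e α⟩ : ℂ)) := ⟨hf, hg⟩

theorem CF.ofReal {f : List Γ → (ℕ → ℕ) → (ℕ → ℝ) → ℝ} (hf : RF f) :
    CF (fun x e α => ((f x e α : ℝ) : ℂ)) :=
  (CF.mk hf RF.zero).congr fun _ _ _ => rfl

theorem CF.nat {t : List Γ → (ℕ → ℕ) → ℕ} (ht : UF t) : CF (fun x e _ => (t x e : ℂ)) :=
  (CF.ofReal (RF.nat ht)).congr fun _ _ _ => by simp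

theorem CF.rat (q : ℚ) : CF (Γ := Γ) (fun _ _ _ => (q : ℂ)) :=
  (CF.ofReal (RF.rat q)).congr fun _ _ _ => by simp

theorem CF.zero : CF (Γ := Γ) (fun _ _ _ => 0) :=
  (CF.ofReal RF.zero).congr fun _ _ _ => by simp

theorem CF.one : CF (Γ := Γ) (fun _ _ _ => 1) :=
  (CF.ofReal RF.one).congr fun _ _ _ => by simp

theorem CF.I : CF (Γ := Γ) (fun _ _ _ => Complex.I) :=
  (CF.mk RF.zero RF.one).congr fun _ _ _ => rfl

theorem CF.add {f g : List Γ → (ℕ → ℕ) → (ℕ → ℝ) → ℂ} (hf : CF f) (hg : CF g) :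
    CF (fun x e α => f x e α + g x e α) :=
  ⟨(hf.1.add hg.1).congr fun _ _ _ => by simp, (hf.2.add hg.2).congr fun _ _ _ => by simp⟩

theorem CF.sub {f g : List Γ → (ℕ → ℕ) → (ℕ → ℝ) → ℂ} (hf : CF f) (hg : CF g) :
    CF (fun x e α => f x e α - g x e α) :=
  ⟨(hf.1.sub hg.1).congr fun _ _ _ => by simp, (hf.2.sub hg.2).congr fun _ _ _ => by simp⟩

theorem CF.neg {f : List Γ → (ℕ → ℕ) → (ℕ → ℝ) → ℂ} (hf : CF f) :
    CF (fun x e α => - f x e α) :=
  ⟨hf.1.neg.congr fun _ _ _ => by simp, hf.2.neg.congr fun _ _ _ => by simp⟩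

theorem CF.conj {f : List Γ → (ℕ → ℕ) → (ℕ → ℝ) → ℂ} (hf : CF f) :
    CF (fun x e α => (starRingEnd ℂ) (f x e α)) :=
  ⟨hf.1.congr fun _ _ _ => by simp, hf.2.neg.congr fun _ _ _ => by simp⟩

theorem CF.mul {f g : List Γ → (ℕ → ℕ) → (ℕ → ℝ) → ℂ} (hf : CF f) (hg : CF g) :
    CF (fun x e α => f x e α * g x e α) :=
  ⟨((hf.1.mul hg.1).sub (hf.2.mul hg.2)).congr fun _ _ _ => by simp,
    ((hf.1.mul hg.2).add (hf.2.mul hg.1)).congr fun _ _ _ => by simp⟩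

theorem CF.normSq {f : List Γ → (ℕ → ℕ) → (ℕ → ℝ) → ℂ} (hf : CF f) :
    RF (fun x e α => Complex.normSq (f x e α)) :=
  ((hf.1.mul hf.1).add (hf.2.mul hf.2)).congr fun _ _ _ => by
    rw [Complex.normSq_apply]

theorem CF.norm {f : List Γ → (ℕ → ℕ) → (ℕ → ℝ) → ℂ} (hf : CF f) :
    RF (fun x e α => ‖f x e α‖) :=
  (RF.sqrt ((hf.1.mul hf.1).add (hf.2.mul hf.2))).congr fun _ _ _ => by
    rw [Complex.norm_def, Complex.normSq_apply]

theorem CF.inv {f : List Γ → (ℕ → ℕ) → (ℕ → ℝ) → ℂ} (hf : CF f) :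
    CF (fun x e α => (f x e α)⁻¹) :=
  ⟨(hf.1.div hf.normSq).congr fun _ _ _ => by simp,
    (hf.2.neg.div hf.normSq).congr fun _ _ _ => by simp⟩

theorem CF.div {f g : List Γ → (ℕ → ℕ) → (ℕ → ℝ) → ℂ} (hf : CF f) (hg : CF g) :
    CF (fun x e α => f x e α / g x e α) :=
  (hf.mul hg.inv).congr fun _ _ _ => by rw [div_eq_mul_inv]

theorem CF.sum {b : List Γ → (ℕ → ℕ) → ℕ} {f : List Γ → (ℕ → ℕ) → (ℕ → ℝ) → ℕ → ℂ} (hb : UF b)
    (hf : CF (fun x e α => f x (fun i => e (i + 1)) α (e 0))) :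
    CF (fun x e α => ∑ i ∈ Finset.range (b x e), f x e α i) :=
  ⟨(RF.sum (f := fun x e α i => (f x e α i).re) hb hf.1).congr fun _ _ _ => by simp,
    (RF.sum (f := fun x e α i => (f x e α i).im) hb hf.2).congr fun _ _ _ => by simp⟩

theorem CF.ite {P : List Γ → (ℕ → ℕ) → Prop} {f g : List Γ → (ℕ → ℕ) → (ℕ → ℝ) → ℂ}
    {inst : ∀ x e, Decidable (P x e)} (hP : UP P) (hf : CF f) (hg : CF g) :
    CF (fun x e α => @_root_.ite ℂ (P x e) (inst x e) (f x e α) (g x e α)) :=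
  ⟨(RF.ite (inst := inst) hP hf.1 hg.1).congr fun x e _ => by by_cases h : P x e <;> simp [h],
    (RF.ite (inst := inst) hP hf.2 hg.2).congr fun x e _ => by by_cases h : P x e <;> simp [h]⟩

theorem RE.ceq {f g : List Γ → (ℕ → ℕ) → (ℕ → ℝ) → ℂ} (hf : CF f) (hg : CF g) :
    RE (fun x e α => f x e α = g x e α) :=
  ((RE.eq hf.1 hg.1).and (RE.eq hf.2 hg.2)).congr fun _ _ _ => Complex.ext_iff.symm

theorem RE.cne {f g : List Γ → (ℕ → ℕ) → (ℕ → ℝ) → ℂ} (hf : CF f) (hg : CF g) :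
    RE (fun x e α => f x e α ≠ g x e α) :=
  ((RE.ne hf.1 hg.1).or (RE.ne hf.2 hg.2)).congr fun _ _ _ => by
    rw [← not_and_or, ← Complex.ext_iff]

/-- A complex variable. -/
theorem CF.var {a b : List Γ → (ℕ → ℕ) → ℕ} (ha : UF a) (hb : UF b) :
    CF (fun x e α => (⟨α (a x e), α (b x e)⟩ : ℂ)) := CF.mk (RF.var ha) (RF.var hb)

theorem RE.exc {R : List Γ → (ℕ → ℕ) → (ℕ → ℝ) → ℂ → Prop}
    (hR : RE (fun x e α => R x e (fun v => α (v + 2)) ⟨α 0, α 1⟩)) :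
    RE (fun x e α => ∃ z : ℂ, R x e α z) := by
  have h1 : RE (fun x e α => ∃ b : ℝ, ∃ a : ℝ, R x e α ⟨a, b⟩) := RE.exr (RE.exr hR)
  refine h1.congr fun x e α => ?_
  constructor
  · rintro ⟨b, a, h⟩; exact ⟨_, h⟩
  · rintro ⟨z, h⟩; exact ⟨z.im, z.re, h⟩

/-- A block of complex variables. -/
theorem RE.excb {R : List Γ → (ℕ → ℕ) → (ℕ → ℝ) → (ℕ → ℂ) → Prop}
    (hR : RE (fun x e α => R x e (fun v => α (2 * v))
      (fun k => ⟨α (2 * (2 * k) + 1), α (2 * (2 * k + 1) + 1)⟩))) :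
    RE (fun x e α => ∃ Z : ℕ → ℂ, R x e α Z) := by
  have h1 : RE (fun x e α => ∃ γ : ℕ → ℝ, R x e α (fun k => ⟨γ (2 * k), γ (2 * k + 1)⟩)) :=
    RE.exb hR
  refine h1.congr fun x e α => ?_
  constructor
  · rintro ⟨γ, h⟩; exact ⟨_, h⟩
  · rintro ⟨Z, h⟩
    refine ⟨mg (fun k => (Z k).re) (fun k => (Z k).im), ?_⟩
    simpa using h

theorem RE.cbind {f : List Γ → (ℕ → ℕ) → (ℕ → ℝ) → ℂ} (hf : CF f)
    {R : List Γ → (ℕ → ℕ) → (ℕ → ℝ) → ℂ → Prop}
    (hR : RE (fun x e α => R x e (fun v => α (v + 2)) ⟨α 0, α 1⟩)) :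
    RE (fun x e α => R x e α (f x e α)) := by
  have h1 : RE (fun x e α => ∃ z : ℂ, f x e α = z ∧ R x e α z) := by
    refine RE.exc ?_
    exact (RE.ceq (CF.shift hf 2) (CF.var (UF.const 0) (UF.const 1))).and hR
  refine h1.congr fun x e α => ?_
  constructor
  · rintro ⟨r, rfl, h⟩; exact h
  · intro h; exact ⟨_, rfl, h⟩

/-- Complex functions from their graphs. -/
theorem CF.of_graph {f : List Γ → (ℕ → ℕ) → (ℕ → ℝ) → ℂ}
    (h : RE (fun x e α => f x e (fun v => α (v + 2)) = ⟨α 0, α 1⟩)) : CF f := by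
  constructor
  · have h1 : RE (fun x e α => ∃ y : ℝ, f x e (fun v => α (v + 1)) = ⟨α 0, y⟩) := by
      refine RE.exr ?_
      refine RE.congr (RE.ren h (ν := fun _ _ v => if v = 0 then 1 else if v = 1 then 0 else v) ?_)
        fun x e α => ?_
      · exact UF.ite (UP.eq (UF.var 0) (UF.const 0)) (UF.const 1)
          (UF.ite (UP.eq (UF.var 0) (UF.const 1)) (UF.const 0) (UF.var 0))
      · simp
    refine RE.congr h1 fun x e α => ?_
    constructor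
    · rintro ⟨y, hy⟩
      change (f x e (fun v => α (v + 1))).re = α 0
      rw [hy]
    · intro hy; exact ⟨_, by rw [← hy]⟩
  · have h1 : RE (fun x e α => ∃ y : ℝ, f x e (fun v => α (v + 1)) = ⟨y, α 0⟩) := by
      refine RE.exr ?_
      exact h
    refine RE.congr h1 fun x e α => ?_
    constructor
    · rintro ⟨y, hy⟩
      change (f x e (fun v => α (v + 1))).im = α 0
      rw [hy]
    · intro hy; exact ⟨_, by rw [← hy]⟩

/-- Bounded recursion over the complex numbers. -/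
theorem CF.natRec {b : List Γ → (ℕ → ℕ) → ℕ} {f : List Γ → (ℕ → ℕ) → (ℕ → ℝ) → ℂ}
    {s : List Γ → (ℕ → ℕ) → (ℕ → ℝ) → ℕ → ℂ → ℂ} (hb : UF b) (hf : CF f)
    (hs : CF (fun x e α => s x (fun i => e (i + 1)) (fun v => α (v + 2)) (e 0) ⟨α 0, α 1⟩)) :
    CF (fun x e α => Nat.rec (motive := fun _ => ℂ) (f x e α) (fun i r => s x e α i r) (b x e)) := by
  refine CF.of_graph ?_
  have h1 : RE (fun x e α => ∃ Z : ℕ → ℂ, Z 0 = f x e (fun v => α (v + 2)) ∧
      (∀ i, i < b x e → s x e (fun v => α (v + 2)) i (Z i) = Z (i + 1)) ∧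
      Z (b x e) = ⟨α 0, α 1⟩) := by
    refine RE.excb ?_
    refine RE.and ?_ (RE.and ?_ ?_)
    · exact RE.ceq (CF.var (UF.const _) (UF.const _)) (CF.aff hf 2 4)
    · refine RE.ball (R := fun x e α i => s x e (fun v => α (2 * (v + 2))) i
        ⟨α (2 * (2 * i) + 1), α (2 * (2 * i + 1) + 1)⟩ =
        ⟨α (2 * (2 * (i + 1)) + 1), α (2 * (2 * (i + 1) + 1) + 1)⟩) hb ?_
      refine RE.ceq (CF.congr (CF.ren hs (ν := fun _ e v => if v = 0 then 2 * (2 * e 0) + 1 else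
        if v = 1 then 2 * (2 * e 0 + 1) + 1 else 2 * v) ?_)
        fun x e α => ?_) (CF.var ?_ ?_)
      · exact UF.ite (UP.eq (UF.var 0) (UF.const 0))
          (((UF.const 2).mul ((UF.const 2).mul (UF.var 1))).add (UF.const 1))
          (UF.ite (UP.eq (UF.var 0) (UF.const 1))
          (((UF.const 2).mul (((UF.const 2).mul (UF.var 1)).add (UF.const 1))).add (UF.const 1))
          ((UF.const 2).mul (UF.var 0)))
      · simp
      · exact ((UF.const 2).mul ((UF.const 2).mul ((UF.var 0).add (UF.const 1)))).add (UF.const 1)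
      · exact ((UF.const 2).mul (((UF.const 2).mul ((UF.var 0).add (UF.const 1))).add
          (UF.const 1))).add (UF.const 1)
    · exact RE.ceq (CF.var (((UF.const 2).mul ((UF.const 2).mul hb)).add (UF.const 1))
        (((UF.const 2).mul (((UF.const 2).mul hb).add (UF.const 1))).add (UF.const 1)))
        (CF.var (UF.const 0) (UF.const 2))
  refine RE.congr h1 fun x e α => ?_
  constructor
  · rintro ⟨γ, h0, hstep, hlast⟩
    have key : ∀ n, n ≤ b x e → Nat.rec (motive := fun _ => ℂ) (f x e (fun v => α (v + 2)))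
        (fun i r => s x e (fun v => α (v + 2)) i r) n = γ n := by
      intro n
      induction n with
      | zero => intro _; exact h0.symm
      | succ n ih =>
        intro hn
        rw [← hstep n (by omega), ← ih (by omega)]
    exact (key _ le_rfl).trans hlast
  · intro h
    refine ⟨fun n => Nat.rec (motive := fun _ => ℂ) (f x e (fun v => α (v + 2)))
      (fun i r => s x e (fun v => α (v + 2)) i r) n, rfl, fun i _ => rfl, h⟩

theorem CF.prod {b : List Γ → (ℕ → ℕ) → ℕ} {f : List Γ → (ℕ → ℕ) → (ℕ → ℝ) → ℕ → ℂ} (hb : UF b)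
    (hf : CF (fun x e α => f x (fun i => e (i + 1)) α (e 0))) :
    CF (fun x e α => ∏ i ∈ Finset.range (b x e), f x e α i) := by
  refine (CF.natRec (s := fun x e α i r => r * f x e α i) hb CF.one
    ((CF.var (UF.const 0) (UF.const 1)).mul (CF.shift hf 2))).congr fun x e α => ?_
  generalize b x e = n
  induction n with
  | zero => simp
  | succ n ih => rw [Finset.prod_range_succ, ← ih]

theorem CF.pow {f : List Γ → (ℕ → ℕ) → (ℕ → ℝ) → ℂ} {g : List Γ → (ℕ → ℕ) → ℕ} (hf : CF f)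
    (hg : UF g) : CF (fun x e α => f x e α ^ g x e) := by
  refine (CF.prod (f := fun x e α _ => f x e α) hg (CF.idx hf UE.tail)).congr fun x e α => ?_
  simp

theorem CF.pow_two_pow {f : List Γ → (ℕ → ℕ) → (ℕ → ℝ) → ℂ} {g : List Γ → (ℕ → ℕ) → ℕ} (hf : CF f)
    (hg : UF g) : CF (fun x e α => f x e α ^ (2 ^ g x e)) := by
  refine (CF.natRec (s := fun x e α i r => r * r) hg hf
    ((CF.var (UF.const 0) (UF.const 1)).mul (CF.var (UF.const 0) (UF.const 1)))).congr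
      fun x e α => ?_
  generalize g x e = n
  induction n with
  | zero => simp
  | succ n ih =>
    rw [pow_succ 2 n, pow_mul, pow_two, ← ih]

end Pool.Agent.AllR
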