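import Mathlib
import Pool.Agent.PT.UF
import Pool.Agent.AllR.CF

/-!
# A shallow language for existential real conditions: integers in binary, small natural numbers
-/

set_option autoImplicit false

namespace Pool.Agent.AllR

open Pool.Agent.PT

variable {Γ : Type}

theorem uf_pair {f g : List Γ → (ℕ → ℕ) → ℕ} (hf : UF f) (hg : UF g) :
    UF (fun x e => Nat.pair (f x e) (g x e)) := by
  have h : UF (fun x e => if f x e < g x e then g x e * g x e + f x e else
      f x e * f x e + f x e + g x e) :=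
    UF.ite (UP.lt hf hg) ((hg.mul hg).add hf) (((hf.mul hf).add hf).add hg)
  exact h

/-- Case distinction on a real condition. -/
theorem CF.rite {R : List Γ → (ℕ → ℕ) → (ℕ → ℝ) → Prop} {f g : List Γ → (ℕ → ℕ) → (ℕ → ℝ) → ℂ}
    {inst : ∀ x e α, Decidable (R x e α)} (hR : RE R) (hR' : RE (fun x e α => ¬ R x e α))
    (hf : CF f) (hg : CF g) :
    CF (fun (x : List Γ) (e : ℕ → ℕ) (α : ℕ → ℝ) =>
      @_root_.ite ℂ (R x e α) (inst x e α) (f x e α) (g x e α)) :=
  ⟨(RF.rite (inst := inst) hR hR' hf.1 hg.1).congr fun x e α => by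
      by_cases h : R x e α <;> simp [h],
    (RF.rite (inst := inst) hR hR' hf.2 hg.2).congr fun x e α => by
      by_cases h : R x e α <;> simp [h]⟩

/-- Substituting a complex value into a complex function. -/
theorem CF.cbind {b : List Γ → (ℕ → ℕ) → (ℕ → ℝ) → ℂ}
    {F : List Γ → (ℕ → ℕ) → (ℕ → ℝ) → ℂ → ℂ} (hb : CF b)
    (hF : CF (fun x e α => F x e (fun v => α (v + 2)) ⟨α 0, α 1⟩)) :
    CF (fun x e α => F x e α (b x e α)) := by
  refine CF.of_graph ?_
  refine RE.cbind (f := fun x e α => b x e (fun v => α (v + 2)))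
    (R := fun x e α z => F x e (fun v => α (v + 2)) z = ⟨α 0, α 1⟩) (CF.shift hb 2) ?_
  refine RE.ceq (CF.congr (CF.ren hF (ν := fun _ _ v => if v < 2 then v else v + 2) ?_)
    fun x e α => ?_) (CF.var (UF.const 2) (UF.const 3))
  · exact UF.ite (UP.lt (UF.var 0) (UF.const 2)) (UF.var 0) ((UF.var 0).add (UF.const 2))
  · simp

/-- The normalisation of a complex number. -/
theorem CF.normalize {f : List Γ → (ℕ → ℕ) → (ℕ → ℝ) → ℂ}
    {inst : ∀ x e α, Decidable (f x e α = 0)} (hf : CF f) :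
    CF (fun (x : List Γ) (e : ℕ → ℕ) (α : ℕ → ℝ) =>
      @_root_.ite ℂ (f x e α = 0) (inst x e α) 1 (f x e α / (‖f x e α‖ : ℂ))) :=
  CF.rite (inst := inst) (RE.ceq hf CF.zero) (RE.cne hf CF.zero) CF.one
    (hf.div (CF.ofReal hf.norm))

/-! ### Natural number valued functions -/

/-- Natural number valued functions of which the values and the powers with that exponent are
representable. -/
def NF (f : List Γ → (ℕ → ℕ) → (ℕ → ℝ) → ℕ) : Prop :=
  RF (fun x e α => (f x e α : ℝ)) ∧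
    CF (fun x e α => (⟨α 0, α 1⟩ : ℂ) ^ f x e (fun v => α (v + 2)))

theorem NF.congr {f g : List Γ → (ℕ → ℕ) → (ℕ → ℝ) → ℕ} (hf : NF f)
    (h : ∀ x e α, f x e α = g x e α) : NF g :=
  ⟨hf.1.congr fun x e α => by rw [h], hf.2.congr fun x e α => by rw [h]⟩

theorem NF.cast {f : List Γ → (ℕ → ℕ) → (ℕ → ℝ) → ℕ} (hf : NF f) :
    RF (fun x e α => (f x e α : ℝ)) := hf.1

theorem NF.ccast {f : List Γ → (ℕ → ℕ) → (ℕ → ℝ) → ℕ} (hf : NF f) :
    CF (fun x e α => (f x e α : ℂ)) := (CF.ofReal hf.1).congr fun x e α => by simp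

theorem CF.npow {b : List Γ → (ℕ → ℕ) → (ℕ → ℝ) → ℂ} {f : List Γ → (ℕ → ℕ) → (ℕ → ℝ) → ℕ}
    (hb : CF b) (hf : NF f) : CF (fun x e α => b x e α ^ f x e α) :=
  CF.cbind (F := fun x e α z => z ^ f x e α) hb hf.2

theorem NF.sub' {f : List Γ → (ℕ → ℕ) → (ℕ → ℝ) → ℕ} (hf : NF f)
    {E : List Γ → (ℕ → ℕ) → (ℕ → ℕ)} (hE : UE E) {ν : List Γ → (ℕ → ℕ) → ℕ → ℕ}
    (hν : UF (fun x e => ν x (fun i => e (i + 1)) (e 0))) :
    NF (fun x e α => f x (E x e) (fun v => α (ν x e v))) := by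
  refine ⟨RF.sub' hf.1 hE hν, ?_⟩
  have h2 : UF (fun x e => ν x (fun i => e (i + 1)) (e 0 - 2)) := by
    have := UF.app hν (UE.cons ((UF.var 0).sub (UF.const 2)) UE.tail)
    exact this
  refine CF.congr (CF.sub' hf.2 hE (ν := fun x e v => if v < 2 then v else ν x e (v - 2) + 2) ?_)
    fun x e α => ?_
  · exact UF.ite (UP.lt (UF.var 0) (UF.const 2)) (UF.var 0) (h2.add (UF.const 2))
  · simp

theorem NF.shift {f : List Γ → (ℕ → ℕ) → (ℕ → ℝ) → ℕ} (hf : NF f) (b : ℕ) :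
    NF (fun x e α => f x e (fun v => α (v + b))) :=
  NF.sub' hf UE.id (ν := fun _ _ v => v + b) ((UF.var 0).add (UF.const b))

theorem NF.aff {f : List Γ → (ℕ → ℕ) → (ℕ → ℝ) → ℕ} (hf : NF f) (a b : ℕ) :
    NF (fun x e α => f x e (fun v => α (a * v + b))) :=
  NF.sub' hf UE.id (ν := fun _ _ v => a * v + b) (((UF.const a).mul (UF.var 0)).add (UF.const b))

theorem NF.idx {f : List Γ → (ℕ → ℕ) → (ℕ → ℝ) → ℕ} (hf : NF f)
    {E : List Γ → (ℕ → ℕ) → (ℕ → ℕ)} (hE : UE E) : NF (fun x e α => f x (E x e) α) :=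
  NF.sub' hf hE (ν := fun _ _ v => v) (UF.var 0)

theorem NF.uf {g : List Γ → (ℕ → ℕ) → ℕ} (hg : UF g) : NF (fun x e _ => g x e) :=
  ⟨RF.nat hg, CF.pow (CF.var (UF.const 0) (UF.const 1)) hg⟩

theorem NF.add {f g : List Γ → (ℕ → ℕ) → (ℕ → ℝ) → ℕ} (hf : NF f) (hg : NF g) :
    NF (fun x e α => f x e α + g x e α) :=
  ⟨(hf.1.add hg.1).congr fun x e α => by push_cast; rfl,
    (hf.2.mul hg.2).congr fun x e α => by rw [pow_add]⟩

theorem NF.mul {f g : List Γ → (ℕ → ℕ) → (ℕ → ℝ) → ℕ} (hf : NF f) (hg : NF g) :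
    NF (fun x e α => f x e α * g x e α) :=
  ⟨(hf.1.mul hg.1).congr fun x e α => by push_cast; rfl,
    (CF.npow hf.2 (NF.shift hg 2)).congr fun x e α => by rw [pow_mul]⟩

theorem RE.nle {f g : List Γ → (ℕ → ℕ) → (ℕ → ℝ) → ℕ} (hf : NF f) (hg : NF g) :
    RE (fun x e α => f x e α ≤ g x e α) := (RE.le hf.1 hg.1).congr fun _ _ _ => Nat.cast_le

theorem RE.nlt {f g : List Γ → (ℕ → ℕ) → (ℕ → ℝ) → ℕ} (hf : NF f) (hg : NF g) :
    RE (fun x e α => f x e α < g x e α) := (RE.lt hf.1 hg.1).congr fun _ _ _ => Nat.cast_lt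

theorem NF.tsub {f g : List Γ → (ℕ → ℕ) → (ℕ → ℝ) → ℕ} (hf : NF f) (hg : NF g) :
    NF (fun x e α => f x e α - g x e α) := by
  classical
  have hR := RE.nle hf hg
  have hR' : RE (fun x e α => ¬ f x e α ≤ g x e α) :=
    (RE.nlt hg hf).congr fun _ _ _ => not_le.symm
  constructor
  · refine (RF.rite (inst := fun _ _ _ => Classical.dec _) hR hR' RF.zero
      (hf.1.sub hg.1)).congr fun x e α => ?_
    beta_reduce
    by_cases h : f x e α ≤ g x e α
    · rw [if_pos h, Nat.sub_eq_zero_of_le h]; simp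
    · rw [if_neg h, Nat.cast_sub (not_le.1 h).le]
  · have hz : CF (Γ := Γ) (fun _ _ α => (⟨α 0, α 1⟩ : ℂ)) := CF.var (UF.const 0) (UF.const 1)
    refine (CF.rite (inst := fun _ _ _ => Classical.dec _) (RE.shift hR 2) (RE.shift hR' 2)
      CF.one (CF.rite (inst := fun _ _ _ => Classical.dec _) (RE.ceq hz CF.zero)
        (RE.cne hz CF.zero) CF.zero (hf.2.div hg.2))).congr fun x e α => ?_
    beta_reduce
    by_cases h : f x e (fun v => α (v + 2)) ≤ g x e (fun v => α (v + 2))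
    · rw [if_pos h, Nat.sub_eq_zero_of_le h, pow_zero]
    · rw [if_neg h]
      by_cases h0 : (⟨α 0, α 1⟩ : ℂ) = 0
      · rw [if_pos h0, h0, zero_pow (by omega)]
      · rw [if_neg h0, pow_sub₀ _ h0 (not_le.1 h).le, div_eq_mul_inv]

theorem cast_choose_prod (n e : ℕ) :
    ((n.choose e : ℕ) : ℝ) = ∏ i ∈ Finset.range e, ((n : ℝ) - i) / (i + 1) := by
  induction e with
  | zero => simp
  | succ e ih =>
    rw [Finset.prod_range_succ, ← ih]
    have h := Nat.choose_succ_right_eq n e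
    have h1 : ((n.choose (e + 1) : ℕ) : ℝ) * (e + 1) = (n.choose e : ℝ) * ((n - e : ℕ) : ℝ) := by
      exact_mod_cast h
    have h2 : (n.choose e : ℝ) * ((n - e : ℕ) : ℝ) = (n.choose e : ℝ) * ((n : ℝ) - e) := by
      by_cases he : e ≤ n
      · rw [Nat.cast_sub he]
      · rw [Nat.choose_eq_zero_of_lt (by omega)]; simp
    have h3 : (e : ℝ) + 1 ≠ 0 := by positivity
    field_simp
    rw [h1, h2]

theorem RF.choose {f : List Γ → (ℕ → ℕ) → (ℕ → ℝ) → ℕ} {g : List Γ → (ℕ → ℕ) → ℕ} (hf : NF f)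
    (hg : UF g) : RF (fun x e α => (((f x e α).choose (g x e) : ℕ) : ℝ)) := by
  refine (RF.prod (f := fun x e α i => ((f x e α : ℝ) - i) / (i + 1)) hg ?_).congr
    fun x e α => (cast_choose_prod _ _).symm
  exact ((RF.idx hf.1 UE.tail).sub (RF.nat (UF.var 0))).div ((RF.nat (UF.var 0)).add RF.one)

theorem CF.choose {f : List Γ → (ℕ → ℕ) → (ℕ → ℝ) → ℕ} {g : List Γ → (ℕ → ℕ) → ℕ} (hf : NF f)
    (hg : UF g) : CF (fun x e α => (((f x e α).choose (g x e) : ℕ) : ℂ)) :=
  (CF.ofReal (RF.choose hf hg)).congr fun x e α => by simp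

/-! ### Integer valued functions -/

/-- Integer valued functions of which the values and the powers with that exponent are
representable. -/
def ZF (f : List Γ → (ℕ → ℕ) → (ℕ → ℝ) → ℤ) : Prop :=
  RF (fun x e α => (f x e α : ℝ)) ∧
    CF (fun x e α => (⟨α 0, α 1⟩ : ℂ) ^ f x e (fun v => α (v + 2)))

theorem CF.zpow {b : List Γ → (ℕ → ℕ) → (ℕ → ℝ) → ℂ} {f : List Γ → (ℕ → ℕ) → (ℕ → ℝ) → ℤ}
    (hb : CF b) (hf : ZF f) : CF (fun x e α => b x e α ^ f x e α) :=
  CF.cbind (F := fun x e α z => z ^ f x e α) hb hf.2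

/-! ### Decoding -/

open scoped Classical in
/-- The natural number with given binary digits. -/
noncomputable def decN (B : ℕ) (β : ℕ → ℝ) : ℕ :=
  ∑ l ∈ Finset.range B, if β l = 1 then 2 ^ l else 0

theorem decN_lt (B : ℕ) (β : ℕ → ℝ) : decN B β < 2 ^ B := by
  classical
  unfold decN
  induction B with
  | zero => simp
  | succ B ih =>
    rw [Finset.sum_range_succ, pow_succ]
    split_ifs <;> omega

theorem decN_bits (B n : ℕ) (hn : n < 2 ^ B) (β : ℕ → ℝ)
    (hβ : ∀ l, l < B → β l = if n.testBit l then 1 else 0) : decN B β = n := by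
  classical
  unfold decN
  induction B generalizing n with
  | zero => simp at hn; simp [hn]
  | succ B ih =>
    rw [Finset.sum_range_succ]
    have h1 : ∑ l ∈ Finset.range B, (if β l = 1 then 2 ^ l else 0) = n % 2 ^ B := by
      refine ih (n % 2 ^ B) (Nat.mod_lt _ (by positivity)) fun l hl => ?_
      rw [hβ l (by omega), Nat.testBit_mod_two_pow]
      simp [hl]
    rw [h1, hβ B (by omega)]
    have h2 : n / 2 ^ B < 2 := by
      rw [Nat.div_lt_iff_lt_mul (by positivity)]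
      rw [pow_succ] at hn
      linarith
    have h3 := Nat.mod_add_div n (2 ^ B)
    have h4 : n.testBit B = decide (n / 2 ^ B % 2 = 1) := Nat.testBit_eq_decide_div_mod_eq
    generalize 2 ^ B = Q at *
    have h5 : n / Q = 0 ∨ n / Q = 1 := by
      generalize n / Q = t at h2
      omega
    rcases h5 with h | h
    · rw [h4, h]
      rw [h, Nat.mul_zero] at h3
      simp only [Nat.zero_mod, zero_ne_one, decide_false, Bool.false_eq_true, if_false]
      omega
    · rw [h4, h]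
      rw [h, Nat.mul_one] at h3
      simp only [decide_true, if_true]
      omega

open scoped Classical in
/-- The integer with given sign and binary digits. -/
noncomputable def decZ (B : ℕ) (β : ℕ → ℝ) : ℤ :=
  (if β 0 = 0 then 1 else -1) * (decN B (fun l => β (l + 1)) : ℤ)

theorem abs_decZ_lt (B : ℕ) (β : ℕ → ℝ) : |decZ B β| < 2 ^ B := by
  classical
  have h := decN_lt B (fun l => β (l + 1))
  have h' : (decN B (fun l => β (l + 1)) : ℤ) < 2 ^ B := by exact_mod_cast h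
  unfold decZ
  rw [abs_mul]
  have : |(if β 0 = 0 then 1 else -1 : ℤ)| = 1 := by split_ifs <;> simp
  rw [this, one_mul, abs_of_nonneg (by positivity)]
  exact h'

theorem decZ_bits (B : ℕ) (n : ℤ) (hn : |n| < 2 ^ B) (β : ℕ → ℝ)
    (h0 : β 0 = if n < 0 then 1 else 0)
    (hβ : ∀ l, l < B → β (l + 1) = if n.natAbs.testBit l then 1 else 0) : decZ B β = n := by
  classical
  have h1 : n.natAbs < 2 ^ B := by
    have : ((n.natAbs : ℕ) : ℤ) < 2 ^ B := by rw [Int.natCast_natAbs]; exact hn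
    exact_mod_cast this
  unfold decZ
  rw [decN_bits B n.natAbs h1 (fun l => β (l + 1)) hβ, h0]
  by_cases h : n < 0
  · simp [h, abs_of_neg h]
  · simp [h, abs_of_nonneg (not_lt.1 h)]

theorem NF.decN {B : List Γ → (ℕ → ℕ) → ℕ} {ν : List Γ → (ℕ → ℕ) → ℕ → ℕ} (hB : UF B)
    (hν : UF (fun x e => ν x (fun i => e (i + 1)) (e 0))) :
    NF (fun x e α => decN (B x e) (fun v => α (ν x e v))) := by
  classical
  constructor
  · refine (RF.sum (f := fun x e α l => if α (ν x e l) = 1 then (2 : ℝ) ^ l else 0) hB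
      ?_).congr fun x e α => ?_
    · exact RF.rite (RE.eq (RF.var hν) RF.one) (RE.ne (RF.var hν) RF.one)
        (RF.pow (f := fun _ _ _ => 2) ((RF.nat (UF.const 2)).congr fun _ _ _ => by simp)
          (UF.var 0)) RF.zero
    · unfold AllR.decN
      push_cast
      rfl
  · refine (CF.prod (f := fun x e α l => if α (ν x e l + 2) = 1 then (⟨α 0, α 1⟩ : ℂ) ^ (2 ^ l)
      else 1) hB ?_).congr fun x e α => ?_
    · exact CF.rite (RE.eq (RF.var (hν.add (UF.const 2))) RF.one)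
        (RE.ne (RF.var (hν.add (UF.const 2))) RF.one)
        (CF.pow_two_pow (CF.var (UF.const 0) (UF.const 1)) (UF.var 0)) CF.one
    · unfold AllR.decN
      rw [← Finset.prod_pow_eq_pow_sum]
      refine Finset.prod_congr rfl fun l _ => ?_
      split_ifs <;> simp

theorem ZF.decZ {B : List Γ → (ℕ → ℕ) → ℕ} {ν : List Γ → (ℕ → ℕ) → ℕ → ℕ} (hB : UF B)
    (hν : UF (fun x e => ν x (fun i => e (i + 1)) (e 0))) :
    ZF (fun x e α => decZ (B x e) (fun v => α (ν x e v))) := by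
  classical
  have hν0 : UF (fun x e => ν x e 0) := by
    have := UF.app hν (UE.cons (UF.const 0) UE.id)
    exact this
  have hν1 : UF (fun x e => ν x (fun i => e (i + 1)) (e 0 + 1)) := by
    have := UF.app hν (UE.cons ((UF.var 0).add (UF.const 1)) UE.tail)
    exact this
  have hN := NF.decN (ν := fun x e v => ν x e (v + 1)) hB hν1
  constructor
  · refine (RF.mul (RF.rite (inst := fun _ _ _ => Classical.dec _)
      (RE.eq (RF.var hν0) RF.zero) (RE.ne (RF.var hν0) RF.zero) RF.one RF.one.neg)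
      hN.1).congr fun x e α => ?_
    unfold AllR.decZ
    by_cases h : α (ν x e 0) = 0 <;> simp [h]
  · refine (CF.rite (inst := fun _ _ _ => Classical.dec _)
      (RE.eq (RF.var (hν0.add (UF.const 2))) RF.zero)
      (RE.ne (RF.var (hν0.add (UF.const 2))) RF.zero) hN.2 hN.2.inv).congr fun x e α => ?_
    unfold AllR.decZ
    by_cases h : α (ν x e 0 + 2) = 0 <;> simp [h]

/-! ### Small natural numbers as indices -/

/-- Small natural number valued functions with representable graph. -/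
def NS (m : List Γ → (ℕ → ℕ) → (ℕ → ℝ) → ℕ) : Prop :=
  (∃ K : List Γ → (ℕ → ℕ) → ℕ, UF K ∧ ∀ x e α, m x e α < K x e) ∧
    RE (fun x e α => m x (fun i => e (i + 1)) α = e 0)

theorem NS.sub' {m : List Γ → (ℕ → ℕ) → (ℕ → ℝ) → ℕ} (hm : NS m)
    {E : List Γ → (ℕ → ℕ) → (ℕ → ℕ)} (hE : UE E) {ν : List Γ → (ℕ → ℕ) → ℕ → ℕ}
    (hν : UF (fun x e => ν x (fun i => e (i + 1)) (e 0))) :
    NS (fun x e α => m x (E x e) (fun v => α (ν x e v))) := by
  obtain ⟨⟨K, hK, hlt⟩, hm⟩ := hm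
  refine ⟨⟨fun x e => K x (E x e), UF.app hK hE, fun x e α => hlt _ _ _⟩, ?_⟩
  have h1 : UF (fun x e => ν x (fun i => e (i + 1 + 1)) (e 0)) := by
    have := UF.app hν (UE.cons (UF.var 0) (E := fun (_ : List Γ) (e : ℕ → ℕ) i => e (i + 2))
      (fun i => UF.var (i + 2)))
    exact this
  exact RE.sub hm (E := fun x e => cons (e 0) (E x (fun i => e (i + 1))))
    (UE.cons (UF.var 0) (UE.comp UE.tail hE)) (ν := fun x e v => ν x (fun i => e (i + 1)) v) h1

theorem NS.shift {m : List Γ → (ℕ → ℕ) → (ℕ → ℝ) → ℕ} (hm : NS m) (b : ℕ) :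
    NS (fun x e α => m x e (fun v => α (v + b))) :=
  NS.sub' hm UE.id (ν := fun _ _ v => v + b) ((UF.var 0).add (UF.const b))

theorem NS.idx {m : List Γ → (ℕ → ℕ) → (ℕ → ℝ) → ℕ} (hm : NS m)
    {E : List Γ → (ℕ → ℕ) → (ℕ → ℕ)} (hE : UE E) : NS (fun x e α => m x (E x e) α) :=
  NS.sub' hm hE (ν := fun _ _ v => v) (UF.var 0)

/-- Using a small natural number as an index. -/
theorem RE.msub {m : List Γ → (ℕ → ℕ) → (ℕ → ℝ) → ℕ}
    {P : List Γ → (ℕ → ℕ) → (ℕ → ℝ) → ℕ → Prop} (hm : NS m)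
    (hP : RE (fun x e α => P x (fun i => e (i + 1)) α (e 0))) :
    RE (fun x e α => P x e α (m x e α)) := by
  obtain ⟨⟨K, hK, hlt⟩, hm⟩ := hm
  refine (RE.bex (R := fun x e α i => m x e α = i ∧ P x e α i) hK
    (RE.and hm hP)).congr fun x e α => ?_
  constructor
  · rintro ⟨i, _, rfl, h⟩; exact h
  · intro h; exact ⟨_, hlt x e α, rfl, h⟩

theorem RF.msub {m : List Γ → (ℕ → ℕ) → (ℕ → ℝ) → ℕ}
    {f : List Γ → (ℕ → ℕ) → (ℕ → ℝ) → ℕ → ℝ} (hm : NS m)
    (hf : RF (fun x e α => f x (fun i => e (i + 1)) α (e 0))) :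
    RF (fun x e α => f x e α (m x e α)) :=
  RE.msub (P := fun x e α i => f x e (fun v => α (v + 1)) i = α 0) (NS.shift hm 1) hf

theorem CF.msub {m : List Γ → (ℕ → ℕ) → (ℕ → ℝ) → ℕ}
    {f : List Γ → (ℕ → ℕ) → (ℕ → ℝ) → ℕ → ℂ} (hm : NS m)
    (hf : CF (fun x e α => f x (fun i => e (i + 1)) α (e 0))) :
    CF (fun x e α => f x e α (m x e α)) :=
  ⟨RF.msub (f := fun x e α i => (f x e α i).re) hm hf.1,
    RF.msub (f := fun x e α i => (f x e α i).im) hm hf.2⟩

theorem NS.toNF {m : List Γ → (ℕ → ℕ) → (ℕ → ℝ) → ℕ} (hm : NS m) : NF m :=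
  ⟨RF.msub (f := fun _ _ _ i => (i : ℝ)) hm (RF.nat (UF.var 0)),
    CF.msub (m := fun x e α => m x e (fun v => α (v + 2)))
      (f := fun _ _ α i => (⟨α 0, α 1⟩ : ℂ) ^ i) (NS.shift hm 2)
      (CF.pow (CF.var (UF.const 0) (UF.const 1)) (UF.var 0))⟩

open scoped Classical in
/-- The small natural number equal to a real number. -/
noncomputable def decS (K : ℕ) (r : ℝ) : ℕ := ∑ e ∈ Finset.range K, if r = e then e else 0

theorem decS_eq (K e : ℕ) (he : e < K) : decS K (e : ℝ) = e := by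
  classical
  unfold decS
  rw [Finset.sum_eq_single e]
  · simp
  · intro b _ hb
    rw [if_neg]
    intro h
    exact hb (by exact_mod_cast h.symm)
  · intro h
    exact absurd (Finset.mem_range.2 he) h

theorem decS_eq_zero (K : ℕ) (r : ℝ) (h : ∀ e, e < K → r ≠ e) : decS K r = 0 := by
  classical
  unfold decS
  refine Finset.sum_eq_zero fun e he => ?_
  rw [if_neg (h e (Finset.mem_range.1 he))]

theorem decS_lt (K : ℕ) (hK : 0 < K) (r : ℝ) : decS K r < K := by
  by_cases h : ∃ e, e < K ∧ r = e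
  · obtain ⟨e, he, rfl⟩ := h
    rw [decS_eq K e he]; exact he
  · push Not at h
    rw [decS_eq_zero K r h]; exact hK

theorem NS.decS {K : List Γ → (ℕ → ℕ) → ℕ} {g : List Γ → (ℕ → ℕ) → ℕ} (hK : UF K) (hg : UF g) :
    NS (fun x e α => decS (K x e) (α (g x e))) := by
  refine ⟨⟨fun x e => K x e + 1, hK.add (UF.const 1), fun x e α => ?_⟩, ?_⟩
  · beta_reduce
    rcases Nat.eq_zero_or_pos (K x e) with h | h
    · rw [h]; simp [AllR.decS]
    · have := decS_lt (K x e) h (α (g x e))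
      omega
  · have hK' := UF.app hK UE.tail
    have hg' := UF.app hg UE.tail
    have hK'' : UF (fun x e => K x (fun i => e (i + 1 + 1))) :=
      UF.app hK (fun i => UF.var (i + 2))
    have hg'' : UF (fun x e => g x (fun i => e (i + 1 + 1))) :=
      UF.app hg (fun i => UF.var (i + 2))
    have h1 : RE (fun x e α => (∃ i, i < K x (fun i => e (i + 1)) ∧
        (α (g x (fun i => e (i + 1))) = i ∧ i = e 0)) ∨
        (e 0 = 0 ∧ ∀ i, i < K x (fun i => e (i + 1)) → α (g x (fun i => e (i + 1))) ≠ i)) := by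
      refine RE.or (RE.bex hK' ?_) (RE.and (RE.up (UP.eq (UF.var 0) (UF.const 0)))
        (RE.ball hK' ?_))
      · exact RE.and (RE.eq (RF.var hg'') (RF.nat (UF.var 0))) (RE.up (UP.eq (UF.var 0) (UF.var 1)))
      · exact RE.ne (RF.var hg'') (RF.nat (UF.var 0))
    refine h1.congr fun x e α => ?_
    beta_reduce
    constructor
    · rintro (⟨i, hi, h2, h3⟩ | ⟨h2, h3⟩)
      · rw [h2, decS_eq _ _ hi, h3]
      · rw [decS_eq_zero _ _ h3, h2]
    · intro h
      by_cases h2 : ∃ i, i < K x (fun i => e (i + 1)) ∧ α (g x (fun i => e (i + 1))) = i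
      · obtain ⟨i, hi, h3⟩ := h2
        left
        refine ⟨i, hi, h3, ?_⟩
        rw [h3, decS_eq _ _ hi] at h
        exact h
      · push Not at h2
        right
        refine ⟨?_, h2⟩
        rw [← h, decS_eq_zero _ _ h2]

end Pool.Agent.AllR
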